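import Mathlib

/-!
# Quasi-central operators
-/

set_option autoImplicit false

open ContinuousLinearMap

namespace Pool.Agent.R710.QM

variable {ι : Type} [Fintype ι]

/-- The Hilbert space. -/
abbrev EE (ι : Type) [Fintype ι] : Type := EuclideanSpace ℂ ι

/-- Bounded operators. -/
abbrev BB (ι : Type) [Fintype ι] : Type := EE ι →L[ℂ] EE ι

/-- The span of the orbit of a ball of words. -/
noncomputable def VV (x y : BB ι) (ξ : EE ι) : ℕ → Submodule ℂ (EE ι)
  | 0 => Submodule.span ℂ {ξ}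
  | n + 1 => VV x y ξ n ⊔ ((VV x y ξ n).map x.toLinearMap ⊔ ((VV x y ξ n).map (star x).toLinearMap ⊔
      ((VV x y ξ n).map y.toLinearMap ⊔ (VV x y ξ n).map (star y).toLinearMap)))

theorem VV_mono (x y : BB ι) (ξ : EE ι) (n : ℕ) : VV x y ξ n ≤ VV x y ξ (n + 1) := le_sup_left

theorem VV_x (x y : BB ι) (ξ : EE ι) (n : ℕ) :
    (VV x y ξ n).map x.toLinearMap ≤ VV x y ξ (n + 1) := le_sup_left.trans le_sup_right

theorem VV_x' (x y : BB ι) (ξ : EE ι) (n : ℕ) :
    (VV x y ξ n).map (star x).toLinearMap ≤ VV x y ξ (n + 1) :=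
  (le_sup_left.trans le_sup_right).trans le_sup_right

theorem VV_y (x y : BB ι) (ξ : EE ι) (n : ℕ) :
    (VV x y ξ n).map y.toLinearMap ≤ VV x y ξ (n + 1) :=
  ((le_sup_left.trans le_sup_right).trans le_sup_right).trans le_sup_right

theorem VV_y' (x y : BB ι) (ξ : EE ι) (n : ℕ) :
    (VV x y ξ n).map (star y).toLinearMap ≤ VV x y ξ (n + 1) :=
  ((le_sup_right.trans le_sup_right).trans le_sup_right).trans le_sup_right

theorem finrank_sup_le (A B : Submodule ℂ (EE ι)) :
    Module.finrank ℂ ↥(A ⊔ B) ≤ Module.finrank ℂ A + Module.finrank ℂ B :=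
  Submodule.finrank_add_le_finrank_add_finrank A B

theorem finrank_VV (x y : BB ι) (ξ : EE ι) (n : ℕ) :
    Module.finrank ℂ (VV x y ξ n) ≤ 5 ^ n := by
  induction n with
  | zero =>
    rw [VV, pow_zero]
    exact (finrank_span_le_card _).trans (by simp)
  | succ n ih =>
    have h : ∀ f : EE ι →ₗ[ℂ] EE ι, Module.finrank ℂ ((VV x y ξ n).map f) ≤ 5 ^ n := fun f =>
      (Submodule.finrank_map_le f _).trans ih
    rw [VV, pow_succ]
    have h1 := h x.toLinearMap
    have h2 := h (star x).toLinearMap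
    have h3 := h y.toLinearMap
    have h4 := h (star y).toLinearMap
    have e1 := finrank_sup_le ((VV x y ξ n).map y.toLinearMap) ((VV x y ξ n).map (star y).toLinearMap)
    have e2 := finrank_sup_le ((VV x y ξ n).map (star x).toLinearMap)
      ((VV x y ξ n).map y.toLinearMap ⊔ (VV x y ξ n).map (star y).toLinearMap)
    have e3 := finrank_sup_le ((VV x y ξ n).map x.toLinearMap)
      ((VV x y ξ n).map (star x).toLinearMap ⊔
      ((VV x y ξ n).map y.toLinearMap ⊔ (VV x y ξ n).map (star y).toLinearMap))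
    have e4 := finrank_sup_le (VV x y ξ n) ((VV x y ξ n).map x.toLinearMap ⊔
      ((VV x y ξ n).map (star x).toLinearMap ⊔
      ((VV x y ξ n).map y.toLinearMap ⊔ (VV x y ξ n).map (star y).toLinearMap)))
    omega

theorem norm_star' (g : BB ι) : ‖star g‖ = ‖g‖ := by
  rw [star_eq_adjoint]; exact LinearIsometryEquiv.norm_map _ _

theorem norm_le_one_of_isom {g : BB ι} (hg : star g * g = 1) : ‖g‖ ≤ 1 := by
  refine ContinuousLinearMap.opNorm_le_bound _ zero_le_one fun ζ => ?_
  have h1 : star g (g ζ) = ζ := congrArg (fun T : BB ι => T ζ) hg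
  have h2 : inner ℂ (g ζ) (g ζ) = inner ℂ ζ ζ := by
    rw [← ContinuousLinearMap.adjoint_inner_right, ← star_eq_adjoint, h1]
  have h3 : ‖g ζ‖ ^ 2 = ‖ζ‖ ^ 2 := by
    rw [← inner_self_eq_norm_sq (𝕜 := ℂ), ← inner_self_eq_norm_sq (𝕜 := ℂ), h2]
  rw [one_mul]
  exact (pow_le_pow_iff_left₀ (norm_nonneg _) (norm_nonneg _) two_ne_zero).1 h3.le

theorem proj_contr {V V' : Submodule ℂ (EE ι)} {g : BB ι} (hg : ‖g‖ ≤ 1)
    (h : V.map g.toLinearMap ≤ V') (ζ : EE ι) :
    ‖V.starProjection (star g ζ)‖ ≤ ‖V'.starProjection ζ‖ := by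
  have h1 : V.starProjection (star g ζ) = V.starProjection (star g (V'.starProjection ζ)) := by
    rw [← sub_eq_zero, ← map_sub, ← map_sub, Submodule.starProjection_apply_eq_zero_iff]
    intro w hw
    rw [star_eq_adjoint, ContinuousLinearMap.adjoint_inner_right, inner_sub_right,
      sub_eq_zero]
    have h2 : V'.starProjection (g w) = g w :=
      Submodule.starProjection_eq_self_iff.2 (h ⟨w, hw, rfl⟩)
    rw [← Submodule.inner_starProjection_left_eq_right, h2]
  rw [h1]
  calc ‖V.starProjection (star g (V'.starProjection ζ))‖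
      ≤ ‖V.starProjection‖ * ‖star g (V'.starProjection ζ)‖ := ContinuousLinearMap.le_opNorm _ _
    _ ≤ 1 * (‖star g‖ * ‖V'.starProjection ζ‖) := by
        gcongr
        · exact Submodule.starProjection_norm_le _
        · exact ContinuousLinearMap.le_opNorm _ _
    _ ≤ 1 * (1 * ‖V'.starProjection ζ‖) := by
        rw [norm_star']; gcongr
    _ = _ := by ring

theorem norm_le_of_rayleigh {D : BB ι} (hD : IsSelfAdjoint D) {C : ℝ} (hC : 0 ≤ C)
    (h : ∀ ζ, |RCLike.re (inner ℂ (D ζ) ζ)| ≤ C * ‖ζ‖ ^ 2) : ‖D‖ ≤ C := by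
  rw [norm_eq_iSup_rayleighQuotient D hD.isSymmetric]
  refine ciSup_le fun ζ => ?_
  rw [ContinuousLinearMap.rayleighQuotient, ContinuousLinearMap.reApplyInnerSelf_apply, abs_div,
    abs_of_nonneg (sq_nonneg ‖ζ‖)]
  by_cases hζ : ‖ζ‖ = 0
  · rw [hζ]; simpa using hC
  · rw [div_le_iff₀ (by positivity)]
    exact h ζ

/-- The sum of the projections. -/
noncomputable def SP (V : ℕ → Submodule ℂ (EE ι)) (R : ℕ) : BB ι :=
  ∑ n ∈ Finset.range R, (V (n + 1)).starProjection

theorem inner_proj (V : Submodule ℂ (EE ι)) (ζ : EE ι) :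
    RCLike.re (inner ℂ (V.starProjection ζ) ζ) = ‖V.starProjection ζ‖ ^ 2 := by
  have h : V.starProjection (V.starProjection ζ) = V.starProjection ζ :=
    Submodule.starProjection_eq_self_iff.2 (Submodule.starProjection_apply_mem _ _)
  rw [← h, Submodule.inner_starProjection_left_eq_right, h, inner_self_eq_norm_sq]

theorem proj_sa (V : Submodule ℂ (EE ι)) : IsSelfAdjoint V.starProjection :=
  isSelfAdjoint_starProjection V

theorem comm_SP {V : ℕ → Submodule ℂ (EE ι)} {g : BB ι} (hg : star g * g = 1)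
    (hg' : g * star g = 1) (h1 : ∀ n, (V n).map g.toLinearMap ≤ V (n + 1))
    (h2 : ∀ n, (V n).map (star g).toLinearMap ≤ V (n + 1)) (R : ℕ) :
    ‖SP V R * g - g * SP V R‖ ≤ 1 := by
  have hgn : ‖g‖ ≤ 1 := norm_le_one_of_isom hg
  have hgn' : ‖star g‖ ≤ 1 := by rw [norm_star']; exact hgn
  have hD : SP V R * g - g * SP V R = (SP V R - g * SP V R * star g) * g := by
    rw [sub_mul, mul_assoc (g * SP V R), hg, mul_one]
  have hsa : IsSelfAdjoint (SP V R - g * SP V R * star g) := by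
    have h3 : adjoint (SP V R) = SP V R := by
      rw [SP, map_sum]
      exact Finset.sum_congr rfl fun n _ => proj_sa _
    show adjoint (SP V R - (g.comp (SP V R)).comp (adjoint g)) = _
    rw [map_sub, adjoint_comp, adjoint_comp, adjoint_adjoint, h3]
    rfl
  have hb : ‖SP V R - g * SP V R * star g‖ ≤ 1 := by
    refine norm_le_of_rayleigh hsa zero_le_one fun ζ => ?_
    have e1 : RCLike.re (inner ℂ ((SP V R - g * SP V R * star g) ζ) ζ) =
        ∑ n ∈ Finset.range R, (‖(V (n + 1)).starProjection ζ‖ ^ 2 -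
          ‖(V (n + 1)).starProjection (star g ζ)‖ ^ 2) := by
      have : (SP V R - g * SP V R * star g) ζ = SP V R ζ - g (SP V R (star g ζ)) := rfl
      have i1 : inner ℂ (g (SP V R (star g ζ))) ζ = inner ℂ (SP V R (star g ζ)) (star g ζ) :=
        (ContinuousLinearMap.adjoint_inner_right g (SP V R (star g ζ)) ζ).symm
      rw [this, inner_sub_left, i1, Finset.sum_sub_distrib, map_sub]
      have i2 : ∀ z : EE ι, RCLike.re (inner ℂ (SP V R z) z) =
          ∑ n ∈ Finset.range R, ‖(V (n + 1)).starProjection z‖ ^ 2 := by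
        intro z
        rw [SP, sum_apply, sum_inner, map_sum]
        exact Finset.sum_congr rfl fun n _ => inner_proj _ _
      rw [i2, i2]
    rw [e1, one_mul]
    have hle : ∀ n, ‖(V n).starProjection ζ‖ ≤ ‖ζ‖ := fun n => by
      calc ‖(V n).starProjection ζ‖ ≤ ‖(V n).starProjection‖ * ‖ζ‖ :=
            ContinuousLinearMap.le_opNorm _ _
        _ ≤ 1 * ‖ζ‖ := by gcongr; exact Submodule.starProjection_norm_le _
        _ = _ := one_mul _
    have up : ∀ n, ‖(V n).starProjection (star g ζ)‖ ≤ ‖(V (n + 1)).starProjection ζ‖ := fun n =>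
      proj_contr hgn (h1 n) ζ
    have lo : ∀ n, ‖(V n).starProjection ζ‖ ≤ ‖(V (n + 1)).starProjection (star g ζ)‖ := fun n => by
      have h3 := proj_contr (g := star g) hgn' (h2 n) (star g ζ)
      rw [star_star] at h3
      have h4 : g (star g ζ) = ζ := by
        have := congrArg (fun T : BB ι => T ζ) hg'
        exact this
      rwa [h4] at h3
    rw [abs_le]
    constructor
    · have h3 : ∑ n ∈ Finset.range R, (‖(V (n + 1)).starProjection ζ‖ ^ 2 -
          ‖(V (n + 1 + 1)).starProjection ζ‖ ^ 2) ≤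
          ∑ n ∈ Finset.range R, (‖(V (n + 1)).starProjection ζ‖ ^ 2 -
            ‖(V (n + 1)).starProjection (star g ζ)‖ ^ 2) := by
        refine Finset.sum_le_sum fun n _ => ?_
        have := pow_le_pow_left₀ (norm_nonneg _) (up (n + 1)) 2
        linarith
      rw [Finset.sum_range_sub' fun n => ‖(V (n + 1)).starProjection ζ‖ ^ 2] at h3
      have h4 := pow_le_pow_left₀ (norm_nonneg _) (hle (R + 1)) 2
      have h5 : 0 ≤ ‖(V (0 + 1)).starProjection ζ‖ ^ 2 := sq_nonneg _
      linarith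
    · have h3 : ∑ n ∈ Finset.range R, (‖(V (n + 1)).starProjection ζ‖ ^ 2 -
            ‖(V (n + 1)).starProjection (star g ζ)‖ ^ 2) ≤
          ∑ n ∈ Finset.range R, (‖(V (n + 1)).starProjection ζ‖ ^ 2 -
            ‖(V n).starProjection ζ‖ ^ 2) := by
        refine Finset.sum_le_sum fun n _ => ?_
        have := pow_le_pow_left₀ (norm_nonneg _) (lo n) 2
        linarith
      rw [Finset.sum_range_sub fun n => ‖(V n).starProjection ζ‖ ^ 2] at h3
      have h4 := pow_le_pow_left₀ (norm_nonneg _) (hle R) 2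
      have h5 : 0 ≤ ‖(V 0).starProjection ζ‖ ^ 2 := sq_nonneg _
      linarith
  rw [hD]
  calc ‖(SP V R - g * SP V R * star g) * g‖ ≤ ‖SP V R - g * SP V R * star g‖ * ‖g‖ :=
        norm_mul_le _ _
    _ ≤ 1 * 1 := by gcongr
    _ = 1 := one_mul 1

/-- Quasi-central operators. -/
theorem exists_quasi {x y : BB ι} (hx : star x * x = 1) (hx' : x * star x = 1)
    (hy : star y * y = 1) (hy' : y * star y = 1) {R : ℕ} (hR : 0 < R)
    (hcard : 5 ^ R < Fintype.card ι) :
    ∃ a : BB ι, star a = a ∧ ‖a‖ ≤ 1 ∧ ‖a * x - x * a‖ ≤ 1 / R ∧ ‖a * y - y * a‖ ≤ 1 / R ∧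
      ∃ ξ η : EE ι, ξ ≠ 0 ∧ η ≠ 0 ∧ a ξ = 0 ∧ a η = η := by
  classical
  have hne : Nonempty ι := by
    rw [← Fintype.card_pos_iff]
    exact lt_of_le_of_lt (Nat.zero_le _) hcard
  obtain ⟨i⟩ := hne
  let ξ : EE ι := EuclideanSpace.single i 1
  have hξ : ξ ≠ 0 := by
    intro h
    have h1 : ‖ξ‖ = 1 := by simp [ξ]
    rw [h, norm_zero] at h1
    exact zero_ne_one h1
  let V := VV x y ξ
  have hVx : ∀ n, (V n).map x.toLinearMap ≤ V (n + 1) := VV_x x y ξ
  have hVx' : ∀ n, (V n).map (star x).toLinearMap ≤ V (n + 1) := VV_x' x y ξ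
  have hVy : ∀ n, (V n).map y.toLinearMap ≤ V (n + 1) := VV_y x y ξ
  have hVy' : ∀ n, (V n).map (star y).toLinearMap ≤ V (n + 1) := VV_y' x y ξ
  have hVm : Monotone V := monotone_nat_of_le_succ (VV_mono x y ξ)
  have hne : V R ≠ ⊤ := by
    intro h
    have h1 := finrank_VV x y ξ R
    have h2 : Module.finrank ℂ (V R) = Fintype.card ι := by
      rw [h, finrank_top, finrank_euclideanSpace]
    have h3 : Module.finrank ℂ (V R) ≤ 5 ^ R := h1
    omega
  obtain ⟨η, hη, hη0⟩ : ∃ η ∈ (V R)ᗮ, η ≠ 0 := by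
    apply Submodule.exists_mem_ne_zero_of_ne_bot
    intro h
    exact hne ((Submodule.orthogonal_eq_bot_iff).1 h)
  have hR' : (0 : ℝ) < R := by exact_mod_cast hR
  let c : ℂ := ((R : ℝ)⁻¹ : ℝ)
  let a : BB ι := 1 - c • SP V R
  have hcn : ‖c‖ = (R : ℝ)⁻¹ := by
    rw [Complex.norm_real, Real.norm_of_nonneg (by positivity)]
  have hSPadj : adjoint (SP V R) = SP V R := by
    rw [SP, map_sum]
    exact Finset.sum_congr rfl fun n _ => proj_sa _
  have hcomm : ∀ g : BB ι, a * g - g * a = -(c • (SP V R * g - g * SP V R)) := by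
    intro g
    show (1 - c • SP V R) * g - g * (1 - c • SP V R) = _
    rw [sub_mul, mul_sub, one_mul, mul_one, smul_mul_assoc, mul_smul_comm, smul_sub]
    abel
  refine ⟨a, ?_, ?_, ?_, ?_, ξ, η, hξ, hη0, ?_, ?_⟩
  · rw [star_eq_adjoint]
    show adjoint (1 - c • SP V R) = 1 - c • SP V R
    rw [map_sub, LinearIsometryEquiv.map_smulₛₗ, hSPadj]
    congr 1
    · exact star_one _
    · congr 1
      exact Complex.conj_ofReal _
  · -- norm
    have h1 : a = c • ∑ n ∈ Finset.range R, (1 - (V (n + 1)).starProjection) := by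
      rw [Finset.sum_sub_distrib, Finset.sum_const, Finset.card_range, smul_sub]
      show 1 - c • SP V R = _
      congr 1
      rw [← Nat.cast_smul_eq_nsmul ℂ, smul_smul]
      have : c * (R : ℂ) = 1 := by
        show (((R : ℝ)⁻¹ : ℝ) : ℂ) * (R : ℂ) = 1
        rw [Complex.ofReal_inv]
        push_cast
        exact inv_mul_cancel₀ (by exact_mod_cast hR.ne')
      rw [this, one_smul]
    rw [h1, norm_smul, hcn]
    have h2 : ‖∑ n ∈ Finset.range R, ((1 : BB ι) - (V (n + 1)).starProjection)‖ ≤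
        ∑ n ∈ Finset.range R, (1 : ℝ) := by
      refine norm_sum_le_of_le _ fun n _ => ?_
      have h3 : (1 : BB ι) - (V (n + 1)).starProjection = (V (n + 1))ᗮ.starProjection :=
        (Submodule.starProjection_orthogonal' _).symm
      rw [h3]
      exact Submodule.starProjection_norm_le _
    rw [Finset.sum_const, Finset.card_range, nsmul_eq_mul, mul_one] at h2
    calc (R : ℝ)⁻¹ * _ ≤ (R : ℝ)⁻¹ * R := by gcongr
      _ = 1 := inv_mul_cancel₀ hR'.ne'
  · rw [hcomm, norm_neg, norm_smul, hcn, one_div]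
    have := comm_SP hx hx' hVx hVx' R
    calc (R : ℝ)⁻¹ * _ ≤ (R : ℝ)⁻¹ * 1 := by gcongr
      _ = _ := mul_one _
  · rw [hcomm, norm_neg, norm_smul, hcn, one_div]
    have := comm_SP hy hy' hVy hVy' R
    calc (R : ℝ)⁻¹ * _ ≤ (R : ℝ)⁻¹ * 1 := by gcongr
      _ = _ := mul_one _
  · have h1 : SP V R ξ = (R : ℂ) • ξ := by
      rw [SP, sum_apply]
      have : ∀ n ∈ Finset.range R, (V (n + 1)).starProjection ξ = ξ := fun n _ =>
        Submodule.starProjection_eq_self_iff.2 (hVm (Nat.zero_le _)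
          (Submodule.mem_span_singleton_self ξ))
      rw [Finset.sum_congr rfl this, Finset.sum_const, Finset.card_range,
        ← Nat.cast_smul_eq_nsmul ℂ]
    show ξ - c • SP V R ξ = 0
    rw [h1, smul_smul]
    have : c * (R : ℂ) = 1 := by
      show (((R : ℝ)⁻¹ : ℝ) : ℂ) * (R : ℂ) = 1
      rw [Complex.ofReal_inv]
      push_cast
      exact inv_mul_cancel₀ (by exact_mod_cast hR.ne')
    rw [this, one_smul, sub_self]
  · have h1 : SP V R η = 0 := by
      rw [SP, sum_apply]
      refine Finset.sum_eq_zero fun n hn => ?_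
      rw [Submodule.starProjection_apply_eq_zero_iff]
      exact Submodule.orthogonal_le (hVm (Finset.mem_range.1 hn)) hη
    show η - c • SP V R η = η
    rw [h1, smul_zero, sub_zero]

end Pool.Agent.R710.QM
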