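import Mathlib
import Pool.Agent.R710.QM.Quasi

/-!
# The Cayley transform
-/

set_option autoImplicit false

open ContinuousLinearMap

namespace Pool.Agent.R710.QM

variable {ι : Type} [Fintype ι]

theorem bb_norm_one_le : ‖(1 : BB ι)‖ ≤ 1 := ContinuousLinearMap.norm_id_le

/-- Abstract Cayley transform. -/
theorem cayley_alg {R : Type*} [Ring R] [StarRing R] {t Bi : R} (ht : star t = -t)
    (h1 : Bi * (1 - t) = 1) (h2 : (1 - t) * Bi = 1) :
    star ((1 + t) * Bi) * ((1 + t) * Bi) = 1 ∧ ((1 + t) * Bi) * star ((1 + t) * Bi) = 1 ∧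
      (1 + t) * Bi - 1 = 2 • (t * Bi) ∧ (1 + t) * Bi = 2 • Bi - 1 ∧
      (∀ g, (1 + t) * Bi * g - g * ((1 + t) * Bi) = 2 • (Bi * (t * g - g * t) * Bi)) := by
  have hcomm : t * Bi = Bi * t := by
    have e1 : Bi * ((1 - t) * t) * Bi = Bi * (t * (1 - t)) * Bi := by
      congr 2; noncomm_ring
    have e2 : Bi * ((1 - t) * t) * Bi = t * Bi := by rw [← mul_assoc, h1, one_mul]
    have e3 : Bi * (t * (1 - t)) * Bi = Bi * t := by
      rw [mul_assoc, mul_assoc t, h2, mul_one]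
    rw [← e2, e1, e3]
  have hAA : (1 + t) * Bi = 2 • Bi - 1 := by
    have : (1 + t) * Bi = 2 • Bi - (1 - t) * Bi := by
      rw [add_mul, sub_mul, one_mul, two_smul]; abel
    rw [this, h2]
  have hs1 : star (1 - t) = 1 + t := by
    rw [star_sub, star_one, ht]; abel
  have hs2 : star (1 + t) = 1 - t := by
    rw [star_add, star_one, ht]; abel
  have hstar : star Bi * (1 + t) = 1 := by
    rw [← hs1, ← star_mul, h2, star_one]
  have hstar' : (1 + t) * star Bi = 1 := by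
    rw [← hs1, ← star_mul, h1, star_one]
  refine ⟨?_, ?_, ?_, hAA, ?_⟩
  · rw [star_mul, hs2]
    calc star Bi * (1 - t) * ((1 + t) * Bi) = star Bi * ((1 + t) * (1 - t)) * Bi := by
          noncomm_ring
      _ = (star Bi * (1 + t)) * ((1 - t) * Bi) := by noncomm_ring
      _ = 1 := by rw [hstar, h2, one_mul]
  · rw [star_mul, hs2]
    calc (1 + t) * Bi * (star Bi * (1 - t)) = (1 + t) * (Bi * star Bi) * (1 - t) := by
          noncomm_ring
      _ = (1 + t) * (star Bi * Bi) * (1 - t) := by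
          have e : Bi * star Bi = star Bi * Bi := by
            calc Bi * star Bi = (star Bi * (1 + t)) * (Bi * star Bi) := by rw [hstar, one_mul]
              _ = star Bi * (Bi + t * Bi) * star Bi := by noncomm_ring
              _ = star Bi * (Bi + Bi * t) * star Bi := by rw [hcomm]
              _ = star Bi * Bi * ((1 + t) * star Bi) := by noncomm_ring
              _ = _ := by rw [hstar', mul_one]
          rw [e]
      _ = ((1 + t) * star Bi) * (Bi * (1 - t)) := by noncomm_ring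
      _ = 1 := by rw [hstar', h1, one_mul]
  · have hBt : Bi - t * Bi = 1 := by rw [← h2, sub_mul, one_mul]
    rw [add_mul, one_mul, ← hBt, two_smul]
    abel
  · intro g
    have e2 : Bi * g - g * Bi = Bi * (t * g - g * t) * Bi := by
      calc Bi * g - g * Bi = Bi * g * ((1 - t) * Bi) - (Bi * (1 - t)) * g * Bi := by
            rw [h2, h1, mul_one, one_mul]
        _ = _ := by noncomm_ring
    rw [hAA, ← e2]
    noncomm_ring

theorem cayley {t : BB ι} (ht : star t = -t) (htn : ‖t‖ ≤ 1 / 2) :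
    ∃ A Bi : BB ι, star A * A = 1 ∧ A * star A = 1 ∧ A - 1 = 2 • (t * Bi) ∧ ‖Bi‖ ≤ 2 ∧
      Bi * (1 - t) = 1 ∧ A = 2 • Bi - 1 ∧
      ∀ g, A * g - g * A = 2 • (Bi * (t * g - g * t) * Bi) := by
  have hu : IsUnit (1 - t) := isUnit_one_sub_of_norm_lt_one (lt_of_le_of_lt htn (by norm_num))
  obtain ⟨u, hu⟩ := hu
  let Bi : BB ι := ↑u⁻¹
  have h1 : Bi * (1 - t) = 1 := by rw [← hu]; exact u.inv_mul
  have h2 : (1 - t) * Bi = 1 := by rw [← hu]; exact u.mul_inv
  have hBt : Bi = 1 + t * Bi := by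
    have := h2
    rw [sub_mul, one_mul] at this
    rw [← this]; abel
  have hBn : ‖Bi‖ ≤ 2 := by
    have h3 : ‖Bi‖ ≤ 1 + 1 / 2 * ‖Bi‖ := by
      calc ‖Bi‖ = ‖1 + t * Bi‖ := by rw [← hBt]
        _ ≤ ‖(1 : BB ι)‖ + ‖t * Bi‖ := norm_add_le _ _
        _ ≤ 1 + ‖t‖ * ‖Bi‖ := add_le_add bb_norm_one_le (norm_mul_le _ _)
        _ ≤ 1 + 1 / 2 * ‖Bi‖ := by gcongr
    linarith
  obtain ⟨k1, k2, k3, k4, k5⟩ := cayley_alg ht h1 h2
  exact ⟨(1 + t) * Bi, Bi, k1, k2, k3, hBn, h1, k4, k5⟩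

/-- The eigenvalue. -/
noncomputable def om (θ : ℝ) : ℂ := 2 * (1 - Complex.I * θ)⁻¹ - 1

theorem exists_A {x y : BB ι} (hx : star x * x = 1) (hx' : x * star x = 1)
    (hy : star y * y = 1) (hy' : y * star y = 1) {R : ℕ} (hR : 0 < R)
    (hcard : 5 ^ R < Fintype.card ι) {θ : ℝ} (hθ : 0 < θ) (hθ' : θ ≤ 1 / 2) :
    ∃ A : BB ι, star A * A = 1 ∧ A * star A = 1 ∧ ‖A - 1‖ ≤ 4 * θ ∧
      ‖A * x - x * A‖ ≤ 8 * θ / R ∧ ‖A * y - y * A‖ ≤ 8 * θ / R ∧
      ∃ ξ η : EE ι, ξ ≠ 0 ∧ η ≠ 0 ∧ A ξ = ξ ∧ A η = om θ • η := by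
  obtain ⟨a, has, han, hax, hay, ξ, η, hξ, hη, haξ, haη⟩ := exists_quasi hx hx' hy hy' hR hcard
  let c : ℂ := Complex.I * θ
  have hcn : ‖c‖ = θ := by
    rw [norm_mul, Complex.norm_I, one_mul, Complex.norm_real, Real.norm_of_nonneg hθ.le]
  let t : BB ι := c • a
  have ht : star t = -t := by
    show star (c • a) = -(c • a)
    rw [star_smul, has]
    have : -(c • a) = (-c) • a := (neg_smul c a).symm
    rw [this]
    congr 1
    show star (Complex.I * (θ : ℂ)) = -(Complex.I * θ)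
    rw [star_mul', Complex.star_def, Complex.conj_I, Complex.conj_ofReal]
    ring
  have htn : ‖t‖ ≤ θ := by
    rw [norm_smul, hcn]
    calc θ * ‖a‖ ≤ θ * 1 := by gcongr
      _ = θ := mul_one _
  obtain ⟨A, Bi, h1, h2, h3, h4, h5, h7, h8⟩ := cayley ht (htn.trans hθ')
  have hcomm : ∀ g : BB ι, ‖a * g - g * a‖ ≤ 1 / R → ‖A * g - g * A‖ ≤ 8 * θ / R := by
    intro g hg
    have e1 := h8 g
    have e3 : t * g - g * t = c • (a * g - g * a) := by
      show (c • a) * g - g * (c • a) = _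
      rw [smul_mul_assoc, mul_smul_comm, smul_sub]
    rw [e1, e3]
    have hRp : (0 : ℝ) < R := by exact_mod_cast hR
    calc ‖2 • (Bi * (c • (a * g - g * a)) * Bi)‖
        ≤ 2 * ‖Bi * (c • (a * g - g * a)) * Bi‖ := by
          rw [two_smul, two_mul]; exact norm_add_le _ _
      _ ≤ 2 * (‖Bi‖ * ‖c • (a * g - g * a)‖ * ‖Bi‖) := by
          gcongr
          exact (norm_mul_le _ _).trans (by gcongr; exact norm_mul_le _ _)
      _ ≤ 2 * (2 * (θ * (1 / R)) * 2) := by
          rw [norm_smul, hcn]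
          gcongr
      _ = _ := by ring
  refine ⟨A, h1, h2, ?_, hcomm x hax, hcomm y hay, ξ, η, hξ, hη, ?_, ?_⟩
  · rw [h3]
    calc ‖2 • (t * Bi)‖ ≤ 2 * ‖t * Bi‖ := by rw [two_smul, two_mul]; exact norm_add_le _ _
      _ ≤ 2 * (‖t‖ * ‖Bi‖) := by gcongr; exact norm_mul_le _ _
      _ ≤ 2 * (θ * 2) := by gcongr
      _ = _ := by ring
  · have e1 : (1 - t) ξ = ξ := by
      show ξ - c • a ξ = ξ
      rw [haξ, smul_zero, sub_zero]
    have e2 : Bi ξ = ξ := by
      have := congrArg (fun T : BB ι => T ξ) h5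
      have e3 : Bi ((1 - t) ξ) = ξ := this
      rwa [e1] at e3
    rw [h7]
    show (2 • Bi) ξ - ξ = ξ
    rw [two_smul]
    show Bi ξ + Bi ξ - ξ = ξ
    rw [e2]; abel
  · have e1 : (1 - t) η = (1 - c) • η := by
      show η - c • a η = _
      rw [haη, sub_smul, one_smul]
    have e2 : (1 - c) • Bi η = η := by
      have := congrArg (fun T : BB ι => T η) h5
      have e3 : Bi ((1 - t) η) = η := this
      rwa [e1, map_smul] at e3
    have hc1 : (1 - c) ≠ 0 := by
      intro h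
      have : c = 1 := (sub_eq_zero.1 h).symm
      rw [this, norm_one] at hcn
      linarith
    have e4 : Bi η = (1 - c)⁻¹ • η := by
      rw [← e2, smul_smul, inv_mul_cancel₀ hc1, one_smul, e2]
    rw [h7]
    show (2 • Bi) η - η = _
    rw [two_smul]
    show Bi η + Bi η - η = _
    rw [e4, om, sub_smul, one_smul, two_mul, add_smul]

end Pool.Agent.R710.QM
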