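import Mathlib

/-!
# Hilbert-Schmidt norms
-/

set_option autoImplicit false

open Matrix

namespace Pool.Agent.R710.QM

variable {ι : Type*} [Fintype ι] [DecidableEq ι]

/-- The square of the Hilbert-Schmidt norm. -/
noncomputable def hs2 (Z : Matrix ι ι ℂ) : ℝ := ∑ i, ∑ j, ‖Z i j‖ ^ 2

omit [DecidableEq ι] in
theorem hs2_eq_trace (Z : Matrix ι ι ℂ) : ((hs2 Z : ℝ) : ℂ) = trace (Zᴴ * Z) := by
  rw [hs2, Matrix.trace]
  simp only [Matrix.diag_apply, Matrix.mul_apply, Matrix.conjTranspose_apply]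
  push_cast
  rw [Finset.sum_comm]
  refine Finset.sum_congr rfl fun i _ => Finset.sum_congr rfl fun j _ => ?_
  rw [← Complex.conj_mul']
  rfl

omit [DecidableEq ι] in
theorem hs2_nonneg (Z : Matrix ι ι ℂ) : 0 ≤ hs2 Z :=
  Finset.sum_nonneg fun _ _ => Finset.sum_nonneg fun _ _ => sq_nonneg _

omit [DecidableEq ι] in
theorem hs2_conjTranspose (Z : Matrix ι ι ℂ) : hs2 Zᴴ = hs2 Z := by
  rw [hs2, hs2, Finset.sum_comm]
  refine Finset.sum_congr rfl fun i _ => Finset.sum_congr rfl fun j _ => ?_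
  rw [Matrix.conjTranspose_apply, norm_star]

theorem hs2_unitary_left {U : Matrix ι ι ℂ} (hU : Uᴴ * U = 1) (Z : Matrix ι ι ℂ) :
    hs2 (U * Z) = hs2 Z := by
  have h : ((hs2 (U * Z) : ℝ) : ℂ) = (hs2 Z : ℝ) := by
    rw [hs2_eq_trace, hs2_eq_trace, Matrix.conjTranspose_mul, Matrix.mul_assoc,
      ← Matrix.mul_assoc Uᴴ, hU, Matrix.one_mul]
  exact_mod_cast h

theorem hs2_unitary_right {U : Matrix ι ι ℂ} (hU : U * Uᴴ = 1) (Z : Matrix ι ι ℂ) :
    hs2 (Z * U) = hs2 Z := by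
  rw [← hs2_conjTranspose, Matrix.conjTranspose_mul, hs2_unitary_left, hs2_conjTranspose]
  rw [Matrix.conjTranspose_conjTranspose, hU]

omit [DecidableEq ι] in
theorem hs2_add_le (A B : Matrix ι ι ℂ) : hs2 (A + B) ≤ 2 * hs2 A + 2 * hs2 B := by
  rw [hs2, hs2, hs2, Finset.mul_sum, Finset.mul_sum, ← Finset.sum_add_distrib]
  refine Finset.sum_le_sum fun i _ => ?_
  rw [Finset.mul_sum, Finset.mul_sum, ← Finset.sum_add_distrib]
  refine Finset.sum_le_sum fun j _ => ?_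
  rw [Matrix.add_apply]
  have := norm_add_le (A i j) (B i j)
  nlinarith [norm_nonneg (A i j + B i j), sq_nonneg (‖A i j‖ - ‖B i j‖)]

omit [DecidableEq ι] in
theorem hs2_smul (c : ℂ) (A : Matrix ι ι ℂ) : hs2 (c • A) = ‖c‖ ^ 2 * hs2 A := by
  rw [hs2, hs2, Finset.mul_sum]
  refine Finset.sum_congr rfl fun i _ => ?_
  rw [Finset.mul_sum]
  refine Finset.sum_congr rfl fun j _ => ?_
  rw [Matrix.smul_apply, smul_eq_mul, norm_mul, mul_pow]

omit [DecidableEq ι] in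
theorem hs2_neg (A : Matrix ι ι ℂ) : hs2 (-A) = hs2 A := by
  have := hs2_smul (-1) A
  rwa [neg_one_smul, norm_neg, norm_one, one_pow, one_mul] at this

/-- The Hilbert-Schmidt norm. -/
noncomputable def hs (Z : Matrix ι ι ℂ) : ℝ := Real.sqrt (hs2 Z)

omit [DecidableEq ι] in
theorem hs_nonneg (Z : Matrix ι ι ℂ) : 0 ≤ hs Z := Real.sqrt_nonneg _

omit [DecidableEq ι] in
theorem hs_sq (Z : Matrix ι ι ℂ) : hs Z ^ 2 = hs2 Z := Real.sq_sqrt (hs2_nonneg Z)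

/-- The matrix as a vector. -/
def vecL (Z : Matrix ι ι ℂ) : EuclideanSpace ℂ (ι × ι) := WithLp.toLp 2 fun p => Z p.1 p.2

omit [DecidableEq ι] in
theorem hs_eq_norm (Z : Matrix ι ι ℂ) : hs Z = ‖vecL Z‖ := by
  rw [hs, EuclideanSpace.norm_eq, hs2, ← Finset.univ_product_univ, Finset.sum_product]
  rfl

omit [DecidableEq ι] in
theorem hs_add_le (A B : Matrix ι ι ℂ) : hs (A + B) ≤ hs A + hs B := by
  rw [hs_eq_norm, hs_eq_norm, hs_eq_norm]
  exact norm_add_le (vecL A) (vecL B)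

omit [DecidableEq ι] in
theorem hs_neg (A : Matrix ι ι ℂ) : hs (-A) = hs A := by rw [hs, hs, hs2_neg]

omit [DecidableEq ι] in
theorem hs_sub_le (A B : Matrix ι ι ℂ) : hs (A - B) ≤ hs A + hs B := by
  rw [sub_eq_add_neg, ← hs_neg B]; exact hs_add_le _ _

omit [DecidableEq ι] in
theorem hs_smul (c : ℂ) (A : Matrix ι ι ℂ) : hs (c • A) = ‖c‖ * hs A := by
  rw [hs, hs, hs2_smul, Real.sqrt_mul (sq_nonneg _), Real.sqrt_sq (norm_nonneg _)]

open scoped Matrix.Norms.L2Operator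

theorem hs2_mul_le_left (A B : Matrix ι ι ℂ) : hs2 (A * B) ≤ ‖A‖ ^ 2 * hs2 B := by
  have e : ∀ M : Matrix ι ι ℂ, hs2 M = ∑ j, ∑ i, ‖M i j‖ ^ 2 := fun M => by
    rw [hs2, Finset.sum_comm]
  rw [e, e, Finset.mul_sum]
  refine Finset.sum_le_sum fun j _ => ?_
  have h := Matrix.l2_opNorm_mulVec A (WithLp.toLp 2 fun i => B i j)
  have h1 : ∑ i, ‖(A * B) i j‖ ^ 2 = ‖(EuclideanSpace.equiv ι ℂ).symm (A *ᵥ fun i => B i j)‖ ^ 2 := by
    rw [EuclideanSpace.norm_sq_eq]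
    rfl
  have h2 : ∑ i, ‖B i j‖ ^ 2 = ‖(WithLp.toLp 2 fun i => B i j : EuclideanSpace ℂ ι)‖ ^ 2 := by
    rw [EuclideanSpace.norm_sq_eq]
  rw [h1, h2, ← mul_pow]
  exact pow_le_pow_left₀ (norm_nonneg _) h 2

theorem hs_mul_le_left (A B : Matrix ι ι ℂ) : hs (A * B) ≤ ‖A‖ * hs B := by
  rw [hs, hs, ← Real.sqrt_sq (norm_nonneg A), ← Real.sqrt_mul (sq_nonneg _)]
  exact Real.sqrt_le_sqrt (hs2_mul_le_left A B)

omit [DecidableEq ι] in
theorem hs_conjTranspose (A : Matrix ι ι ℂ) : hs Aᴴ = hs A := by rw [hs, hs, hs2_conjTranspose]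

theorem hs_mul_le_right (A B : Matrix ι ι ℂ) : hs (A * B) ≤ hs A * ‖B‖ := by
  rw [← hs_conjTranspose, Matrix.conjTranspose_mul, ← hs_conjTranspose A,
    ← Matrix.l2_opNorm_conjTranspose B, mul_comm]
  exact hs_mul_le_left _ _

end Pool.Agent.R710.QM
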