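import Mathlib
import Pool.Agent.R710.QM.HS
import Pool.Agent.R710.QM.Cayley

/-!
# The perturbation argument
-/

set_option autoImplicit false

open Matrix

namespace Pool.Agent.R710.QM

section ring

variable {R : Type*} [NormedRing R]

theorem norm_pow_le_one (h1 : ‖(1 : R)‖ ≤ 1) {x : R} (hx : ‖x‖ ≤ 1) (n : ℕ) : ‖x ^ n‖ ≤ 1 := by
  induction n with
  | zero => rw [pow_zero]; exact h1
  | succ n ih =>
    rw [pow_succ]
    calc ‖x ^ n * x‖ ≤ ‖x ^ n‖ * ‖x‖ := norm_mul_le _ _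
      _ ≤ 1 * 1 := by gcongr
      _ = 1 := one_mul 1

theorem comm_pow_le (h1 : ‖(1 : R)‖ ≤ 1) {x B : R} (hB : ‖B‖ ≤ 1) (n : ℕ) :
    ‖B ^ n * x - x * B ^ n‖ ≤ n * ‖B * x - x * B‖ := by
  induction n with
  | zero => simp
  | succ n ih =>
    have e : B ^ (n + 1) * x - x * B ^ (n + 1) =
        B ^ n * (B * x - x * B) + (B ^ n * x - x * B ^ n) * B := by
      rw [pow_succ]; noncomm_ring
    rw [e]
    have hBn := norm_pow_le_one h1 hB n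
    calc ‖B ^ n * (B * x - x * B) + (B ^ n * x - x * B ^ n) * B‖
        ≤ ‖B ^ n * (B * x - x * B)‖ + ‖(B ^ n * x - x * B ^ n) * B‖ := norm_add_le _ _
      _ ≤ ‖B ^ n‖ * ‖B * x - x * B‖ + ‖B ^ n * x - x * B ^ n‖ * ‖B‖ :=
          add_le_add (norm_mul_le _ _) (norm_mul_le _ _)
      _ ≤ 1 * ‖B * x - x * B‖ + (n * ‖B * x - x * B‖) * 1 := by gcongr
      _ = _ := by push_cast; ring

theorem mul_pow_sub_le (h1 : ‖(1 : R)‖ ≤ 1) {x B : R} (hx : ‖x‖ ≤ 1) (hB : ‖B‖ ≤ 1) (p : ℕ) :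
    ‖(x * B) ^ p - x ^ p * B ^ p‖ ≤ p ^ 2 * ‖B * x - x * B‖ := by
  induction p with
  | zero => simp
  | succ p ih =>
    have e : (x * B) ^ (p + 1) - x ^ (p + 1) * B ^ (p + 1) =
        ((x * B) ^ p - x ^ p * B ^ p) * (x * B) + x ^ p * (B ^ p * x - x * B ^ p) * B := by
      rw [pow_succ, pow_succ, pow_succ]; noncomm_ring
    rw [e]
    have hxB : ‖x * B‖ ≤ 1 := by
      calc ‖x * B‖ ≤ ‖x‖ * ‖B‖ := norm_mul_le _ _
        _ ≤ 1 * 1 := by gcongr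
        _ = 1 := one_mul 1
    have hxp := norm_pow_le_one h1 hx p
    have hc := comm_pow_le h1 (x := x) hB p
    have hn := norm_nonneg (B * x - x * B)
    calc _ ≤ ‖((x * B) ^ p - x ^ p * B ^ p) * (x * B)‖ +
          ‖x ^ p * (B ^ p * x - x * B ^ p) * B‖ := norm_add_le _ _
      _ ≤ ‖(x * B) ^ p - x ^ p * B ^ p‖ * ‖x * B‖ +
          ‖x ^ p‖ * ‖B ^ p * x - x * B ^ p‖ * ‖B‖ := by
          refine add_le_add (norm_mul_le _ _) ((norm_mul_le _ _).trans ?_)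
          gcongr
          exact norm_mul_le _ _
      _ ≤ (p ^ 2 * ‖B * x - x * B‖) * 1 + 1 * (p * ‖B * x - x * B‖) * 1 := by gcongr
      _ ≤ _ := by push_cast; nlinarith

theorem pow_sub_pow_le (h1 : ‖(1 : R)‖ ≤ 1) {x y : R} (hx : ‖x‖ ≤ 1) (hy : ‖y‖ ≤ 1) (n : ℕ) :
    ‖x ^ n - y ^ n‖ ≤ n * ‖x - y‖ := by
  induction n with
  | zero => simp
  | succ n ih =>
    have e : x ^ (n + 1) - y ^ (n + 1) = x ^ n * (x - y) + (x ^ n - y ^ n) * y := by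
      rw [pow_succ, pow_succ]; noncomm_ring
    rw [e]
    have hxn := norm_pow_le_one h1 hx n
    calc _ ≤ ‖x ^ n * (x - y)‖ + ‖(x ^ n - y ^ n) * y‖ := norm_add_le _ _
      _ ≤ ‖x ^ n‖ * ‖x - y‖ + ‖x ^ n - y ^ n‖ * ‖y‖ :=
          add_le_add (norm_mul_le _ _) (norm_mul_le _ _)
      _ ≤ 1 * ‖x - y‖ + (n * ‖x - y‖) * 1 := by gcongr
      _ = _ := by push_cast; ring

end ring

open scoped Matrix.Norms.L2Operator

variable {ι : Type} [Fintype ι] [DecidableEq ι]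

/-- The identification of matrices with operators. -/
noncomputable abbrev Φ : Matrix ι ι ℂ ≃⋆ₐ[ℂ] BB ι := Matrix.toEuclideanCLM (n := ι) (𝕜 := ℂ)

theorem norm_Φ (A : Matrix ι ι ℂ) : ‖Φ A‖ = ‖A‖ := rfl

theorem norm_oneM_le : ‖(1 : Matrix ι ι ℂ)‖ ≤ 1 := by
  rw [← norm_Φ, map_one]; exact bb_norm_one_le

theorem norm_unitaryM_le {x : Matrix ι ι ℂ} (hx : xᴴ * x = 1) : ‖x‖ ≤ 1 := by
  have h := Matrix.l2_opNorm_conjTranspose_mul_self x
  rw [hx] at h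
  have h1 := norm_oneM_le (ι := ι)
  rw [h] at h1
  nlinarith [norm_nonneg x]

/-- The commutator with a power. -/
theorem hs_comm_pow {Q A : Matrix ι ι ℂ} (hA : ‖A‖ ≤ 1) (n : ℕ) :
    hs (Q * A ^ n - A ^ n * Q - n • (Q * A - A * Q)) ≤
      n ^ 2 * (‖A - 1‖ * hs (Q * A - A * Q)) := by
  induction n with
  | zero => simp [hs, hs2]
  | succ n ih =>
    have e : Q * A ^ (n + 1) - A ^ (n + 1) * Q - (n + 1) • (Q * A - A * Q) =
        (Q * A ^ n - A ^ n * Q - n • (Q * A - A * Q)) * A +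
          (n • (Q * A - A * Q) * (A - 1) + (A ^ n - 1) * (Q * A - A * Q)) := by
      rw [pow_succ, add_smul, one_smul]; noncomm_ring
    have hAn : ‖A ^ n - 1‖ ≤ n * ‖A - 1‖ := by
      have := pow_sub_pow_le norm_oneM_le hA norm_oneM_le n
      rwa [one_pow] at this
    have hd := hs_nonneg (Q * A - A * Q)
    have hsm : hs (n • (Q * A - A * Q)) = n * hs (Q * A - A * Q) := by
      rw [← Nat.cast_smul_eq_nsmul ℂ, hs_smul]; simp
    rw [e]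
    have h1 := hs_add_le ((Q * A ^ n - A ^ n * Q - n • (Q * A - A * Q)) * A)
      (n • (Q * A - A * Q) * (A - 1) + (A ^ n - 1) * (Q * A - A * Q))
    have h2 := hs_add_le (n • (Q * A - A * Q) * (A - 1)) ((A ^ n - 1) * (Q * A - A * Q))
    have h3 := hs_mul_le_right (Q * A ^ n - A ^ n * Q - n • (Q * A - A * Q)) A
    have h4 := hs_mul_le_right (n • (Q * A - A * Q)) (A - 1)
    have h5 := hs_mul_le_left (A ^ n - 1) (Q * A - A * Q)
    rw [hsm] at h4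
    have h6 : hs (Q * A ^ n - A ^ n * Q - n • (Q * A - A * Q)) * ‖A‖ ≤
        hs (Q * A ^ n - A ^ n * Q - n • (Q * A - A * Q)) * 1 := by
      gcongr
      exact hs_nonneg _
    have h7 : ‖A ^ n - 1‖ * hs (Q * A - A * Q) ≤ n * ‖A - 1‖ * hs (Q * A - A * Q) := by gcongr
    have h8 : 0 ≤ ‖A - 1‖ * hs (Q * A - A * Q) := mul_nonneg (norm_nonneg _) hd
    push_cast
    nlinarith

theorem hs_comm_le_pow12 {Q A : Matrix ι ι ℂ} (hA : ‖A‖ ≤ 1) (hA1 : ‖A - 1‖ ≤ 1 / 25) :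
    hs (Q * A - A * Q) ≤ hs (Q * A ^ 12 - A ^ 12 * Q) := by
  have h1 := hs_comm_pow (Q := Q) hA 12
  have hd := hs_nonneg (Q * A - A * Q)
  have hsm : hs (12 • (Q * A - A * Q)) = 12 * hs (Q * A - A * Q) := by
    rw [← Nat.cast_smul_eq_nsmul ℂ, hs_smul]; simp
  have h2 := hs_sub_le (Q * A ^ 12 - A ^ 12 * Q)
    (Q * A ^ 12 - A ^ 12 * Q - 12 • (Q * A - A * Q))
  rw [sub_sub_cancel, hsm] at h2
  have h3 : ‖A - 1‖ * hs (Q * A - A * Q) ≤ 1 / 25 * hs (Q * A - A * Q) := by gcongr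
  push_cast at h1
  nlinarith

theorem hs_comm_pow_le {Q A : Matrix ι ι ℂ} (hA : ‖A‖ ≤ 1) (n : ℕ) :
    hs (Q * A ^ n - A ^ n * Q) ≤ n * hs (Q * A - A * Q) := by
  induction n with
  | zero => simp [hs, hs2]
  | succ n ih =>
    have e : Q * A ^ (n + 1) - A ^ (n + 1) * Q =
        (Q * A ^ n - A ^ n * Q) * A + A ^ n * (Q * A - A * Q) := by
      rw [pow_succ]; noncomm_ring
    rw [e]
    have h1 := hs_add_le ((Q * A ^ n - A ^ n * Q) * A) (A ^ n * (Q * A - A * Q))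
    have h2 := hs_mul_le_right (Q * A ^ n - A ^ n * Q) A
    have h3 := hs_mul_le_left (A ^ n) (Q * A - A * Q)
    have h4 : hs (Q * A ^ n - A ^ n * Q) * ‖A‖ ≤ hs (Q * A ^ n - A ^ n * Q) * 1 := by
      gcongr; exact hs_nonneg _
    have h5 : ‖A ^ n‖ * hs (Q * A - A * Q) ≤ 1 * hs (Q * A - A * Q) := by
      gcongr
      · exact hs_nonneg _
      · exact norm_pow_le_one norm_oneM_le hA n
    push_cast
    nlinarith

theorem hs_comm_le {Q M M' : Matrix ι ι ℂ} (h : Q * M' = M' * Q) :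
    hs (Q * M - M * Q) ≤ 2 * ‖M - M'‖ * hs Q := by
  have e : Q * M - M * Q = Q * (M - M') - (M - M') * Q := by
    rw [mul_sub, sub_mul, h]; abel
  rw [e]
  have h1 := hs_sub_le (Q * (M - M')) ((M - M') * Q)
  have h2 := hs_mul_le_right Q (M - M')
  have h3 := hs_mul_le_left (M - M') Q
  linarith

/-- The main estimate. -/
theorem hs_comm_x {Q x A C : Matrix ι ι ℂ} (hx : xᴴ * x = 1) (hA : Aᴴ * A = 1)
    (hA' : A * Aᴴ = 1) (hA1 : ‖A - 1‖ ≤ 1 / 25) (hQ : Qᴴ = Q) {m : ℕ} (hm : m ≤ 4)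
    {X' : Matrix ι ι ℂ} (hX' : Q * X' = X' * Q) (hC : Q * C = C * Q) {σ s : ℝ}
    (hσ : ‖x * A ^ m - X'‖ ≤ σ) (hs' : ‖A ^ 12 - C‖ ≤ s) :
    hs (Q * x - x * Q) ≤ (2 * σ + 8 * s) * hs Q := by
  have hAn := norm_unitaryM_le hA
  have hQn := hs_nonneg Q
  have hAm : A ^ m * (Aᴴ) ^ m = 1 := by
    rw [← (show Commute A Aᴴ by rw [Commute, SemiconjBy, hA, hA']).mul_pow, hA', one_pow]
  have e : Q * x - x * Q = (Q * (x * A ^ m) - (x * A ^ m) * Q) * (Aᴴ) ^ m +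
      x * A ^ m * (Q * (Aᴴ) ^ m - (Aᴴ) ^ m * Q) := by
    calc Q * x - x * Q = Q * x * (A ^ m * (Aᴴ) ^ m) - x * (A ^ m * (Aᴴ) ^ m) * Q := by
          rw [hAm, mul_one, mul_one]
      _ = _ := by noncomm_ring
  have h1 : hs (Q * (x * A ^ m) - (x * A ^ m) * Q) ≤ 2 * σ * hs Q := by
    refine (hs_comm_le hX').trans ?_
    gcongr
  have h2 : hs (Q * (Aᴴ) ^ m - (Aᴴ) ^ m * Q) = hs (Q * A ^ m - A ^ m * Q) := by
    rw [← hs_conjTranspose, conjTranspose_sub, conjTranspose_mul, conjTranspose_mul,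
      conjTranspose_pow, conjTranspose_conjTranspose, hQ, ← hs_neg]
    congr 1; abel
  have h3 : hs (Q * A ^ m - A ^ m * Q) ≤ m * hs (Q * A - A * Q) := hs_comm_pow_le hAn m
  have h4 := hs_comm_le_pow12 (Q := Q) hAn hA1
  have h5 : hs (Q * A ^ 12 - A ^ 12 * Q) ≤ 2 * s * hs Q := by
    refine (hs_comm_le hC).trans ?_
    gcongr
  have hxA : ‖x * A ^ m‖ ≤ 1 := by
    calc ‖x * A ^ m‖ ≤ ‖x‖ * ‖A ^ m‖ := norm_mul_le _ _
      _ ≤ 1 * 1 := by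
          gcongr
          · exact norm_unitaryM_le hx
          · exact norm_pow_le_one norm_oneM_le hAn m
      _ = 1 := one_mul 1
  have hAh : ‖Aᴴ‖ ≤ 1 := by rw [Matrix.l2_opNorm_conjTranspose]; exact hAn
  rw [e]
  have h6 := hs_add_le ((Q * (x * A ^ m) - (x * A ^ m) * Q) * (Aᴴ) ^ m)
    (x * A ^ m * (Q * (Aᴴ) ^ m - (Aᴴ) ^ m * Q))
  have h7 := hs_mul_le_right (Q * (x * A ^ m) - (x * A ^ m) * Q) ((Aᴴ) ^ m)
  have h8 := hs_mul_le_left (x * A ^ m) (Q * (Aᴴ) ^ m - (Aᴴ) ^ m * Q)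
  have h9 : hs (Q * (x * A ^ m) - (x * A ^ m) * Q) * ‖(Aᴴ) ^ m‖ ≤
      hs (Q * (x * A ^ m) - (x * A ^ m) * Q) * 1 := by
    gcongr
    · exact hs_nonneg _
    · exact norm_pow_le_one norm_oneM_le hAh m
  have h10 : ‖x * A ^ m‖ * hs (Q * (Aᴴ) ^ m - (Aᴴ) ^ m * Q) ≤
      1 * hs (Q * (Aᴴ) ^ m - (Aᴴ) ^ m * Q) := by
    gcongr; exact hs_nonneg _
  have hm' : (m : ℝ) ≤ 4 := by exact_mod_cast hm
  have h11 : (m : ℝ) * hs (Q * A - A * Q) ≤ 4 * (2 * s * hs Q) := by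
    have := hs_nonneg (Q * A - A * Q)
    calc (m : ℝ) * hs (Q * A - A * Q) ≤ 4 * hs (Q * A - A * Q) := by gcongr
      _ ≤ _ := by gcongr; exact h4.trans h5
  rw [h2] at h10 h8
  nlinarith

end Pool.Agent.R710.QM
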