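import Mathlib
import Pool.Agent.R710.QM.Pert

/-!
# The spectral projection and the contradiction
-/

set_option autoImplicit false

open Matrix ContinuousLinearMap

namespace Pool.Agent.R710.QM

open scoped Matrix.Norms.L2Operator

variable {ι : Type} [Fintype ι]

theorem proj_comm {V : Submodule ℂ (EE ι)} {T : BB ι} (h1 : ∀ v ∈ V, T v ∈ V)
    (h2 : ∀ v ∈ V, (star T) v ∈ V) : V.starProjection * T = T * V.starProjection := by
  ext1 ζ
  show V.starProjection (T ζ) = T (V.starProjection ζ)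
  refine Submodule.eq_starProjection_of_mem_orthogonal
    (h1 _ (Submodule.starProjection_apply_mem _ _)) ?_
  rw [← map_sub]
  intro w hw
  rw [← ContinuousLinearMap.adjoint_inner_left]
  exact Submodule.sub_starProjection_mem_orthogonal ζ _ (h2 w hw)

/-- A nontrivial projection that commutes with `X` and `Y`. -/
theorem exists_proj [Nonempty ι] {C X Y : BB ι} (hX : C * X = X * C) (hX' : C * star X = star X * C)
    (hY : C * Y = Y * C) (hY' : C * star Y = star Y * C) (hC : ∀ c : ℂ, C ≠ c • (1 : BB ι)) :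
    ∃ P : BB ι, star P = P ∧ P * P = P ∧ P ≠ 0 ∧ P ≠ 1 ∧ P * X = X * P ∧ P * Y = Y * P := by
  classical
  obtain ⟨i⟩ := ‹Nonempty ι›
  have hnt : Nontrivial (EE ι) := by
    refine ⟨⟨EuclideanSpace.single i 1, 0, fun h => ?_⟩⟩
    have h1 : ‖(EuclideanSpace.single i (1 : ℂ) : EE ι)‖ = 1 := by simp
    rw [h, norm_zero] at h1
    exact zero_ne_one h1
  obtain ⟨c, hc⟩ := Module.End.exists_eigenvalue (K := ℂ) (C : EE ι →ₗ[ℂ] EE ι)
  let V : Submodule ℂ (EE ι) := Module.End.eigenspace (C : EE ι →ₗ[ℂ] EE ι) c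
  have hV : ∀ v, v ∈ V ↔ C v = c • v := fun v => Module.End.mem_eigenspace_iff
  have hinv : ∀ T : BB ι, C * T = T * C → ∀ v ∈ V, T v ∈ V := by
    intro T hT v hv
    rw [hV] at hv ⊢
    have := congrArg (fun S : BB ι => S v) hT
    have h2 : C (T v) = T (C v) := this
    rw [h2, hv, map_smul]
  have hidem : ∀ ζ : EE ι, V.starProjection (V.starProjection ζ) = V.starProjection ζ := fun ζ =>
    Submodule.starProjection_eq_self_iff.2 (Submodule.starProjection_apply_mem _ _)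
  refine ⟨V.starProjection, proj_sa V, ?_, ?_, ?_, proj_comm (hinv X hX) (hinv _ hX'),
    proj_comm (hinv Y hY) (hinv _ hY')⟩
  · ext1 ζ
    exact hidem ζ
  · intro h0
    apply hc
    show V = ⊥
    rw [Submodule.eq_bot_iff]
    intro v hv
    have h1 : V.starProjection v = v := Submodule.starProjection_eq_self_iff.2 hv
    rw [h0] at h1
    exact h1.symm
  · intro h1
    apply hC c
    ext1 v
    show C v = c • v
    rw [← hV, ← Submodule.starProjection_eq_self_iff, h1]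
    rfl

theorem omega_bound {θ : ℝ} (h0 : 0 < θ) (h1 : θ ≤ 1 / 100) : θ ≤ ‖om θ ^ 12 - 1‖ := by
  set w := om θ with hw
  have hn : ‖Complex.I * (θ : ℂ)‖ = θ := by
    rw [norm_mul, Complex.norm_I, one_mul, Complex.norm_real, Real.norm_of_nonneg h0.le]
  have hne : (1 - Complex.I * (θ : ℂ)) ≠ 0 := by
    intro h
    rw [← (sub_eq_zero.1 h), norm_one] at hn
    linarith
  have e1 : w - 1 = 2 * (Complex.I * θ) * (1 - Complex.I * θ)⁻¹ := by
    rw [hw, om]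
    field_simp
    ring
  have hlo : 1 - θ ≤ ‖1 - Complex.I * (θ : ℂ)‖ := by
    have := norm_sub_norm_le (1 : ℂ) (Complex.I * θ)
    rwa [norm_one, hn] at this
  have hup : ‖1 - Complex.I * (θ : ℂ)‖ ≤ 1 + θ := by
    have := norm_sub_le (1 : ℂ) (Complex.I * θ)
    rwa [norm_one, hn] at this
  have hpos : 0 < ‖1 - Complex.I * (θ : ℂ)‖ := by linarith
  have e2 : ‖w - 1‖ = 2 * θ / ‖1 - Complex.I * (θ : ℂ)‖ := by
    rw [e1, norm_mul, norm_mul, hn, norm_inv, Complex.norm_ofNat]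
    ring
  have hw1 : ‖w - 1‖ ≤ 3 * θ := by
    rw [e2, div_le_iff₀ hpos]
    nlinarith
  have hw2 : θ ≤ ‖w - 1‖ := by
    rw [e2, le_div_iff₀ hpos]
    nlinarith
  have hwn : ‖w‖ ≤ 1 := by
    have hstar : ‖1 + Complex.I * (θ : ℂ)‖ = ‖1 - Complex.I * (θ : ℂ)‖ := by
      rw [← Complex.norm_conj, map_add, map_one, map_mul, Complex.conj_I, Complex.conj_ofReal,
        neg_mul, ← sub_eq_add_neg]
    have e3 : w = (1 + Complex.I * θ) * (1 - Complex.I * θ)⁻¹ := by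
      rw [hw, om]
      field_simp
      ring
    rw [e3, norm_mul, norm_inv, hstar, mul_inv_cancel₀ hpos.ne']
  -- induction
  have hpow : ∀ n : ℕ, ‖w ^ n - 1 - n * (w - 1)‖ ≤ n ^ 2 * ‖w - 1‖ ^ 2 := by
    intro n
    induction n with
    | zero => simp
    | succ n ih =>
      have e : w ^ (n + 1) - 1 - ((n + 1 : ℕ) : ℂ) * (w - 1) =
          (w ^ n - 1 - n * (w - 1)) + (w ^ n - 1) * (w - 1) := by
        push_cast; ring
      have hn1 : ‖w ^ n - 1‖ ≤ n * ‖w - 1‖ := by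
        have := pow_sub_pow_le (R := ℂ) (by simp) hwn (y := 1) (by simp) n
        rwa [one_pow] at this
      rw [e]
      calc _ ≤ ‖w ^ n - 1 - n * (w - 1)‖ + ‖(w ^ n - 1) * (w - 1)‖ := norm_add_le _ _
        _ ≤ n ^ 2 * ‖w - 1‖ ^ 2 + n * ‖w - 1‖ * ‖w - 1‖ := by
            rw [norm_mul]; gcongr
        _ ≤ _ := by
            push_cast
            nlinarith [norm_nonneg (w - 1), sq_nonneg ‖w - 1‖]
  have h12 := hpow 12
  have h13 : ‖(12 : ℂ) * (w - 1)‖ ≤ ‖w ^ 12 - 1‖ + ‖w ^ 12 - 1 - 12 * (w - 1)‖ := by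
    have : (12 : ℂ) * (w - 1) = (w ^ 12 - 1) - (w ^ 12 - 1 - 12 * (w - 1)) := by ring
    calc ‖(12 : ℂ) * (w - 1)‖ = ‖(w ^ 12 - 1) - (w ^ 12 - 1 - 12 * (w - 1))‖ := by rw [← this]
      _ ≤ _ := norm_sub_le (w ^ 12 - 1) (w ^ 12 - 1 - 12 * (w - 1))
  rw [norm_mul, Complex.norm_ofNat] at h13
  push_cast at h12
  have h14 : ‖w - 1‖ ^ 2 ≤ 3 / 100 * ‖w - 1‖ := by
    rw [sq]
    gcongr
    linarith
  nlinarith

theorem Φ_inj {ι : Type} [Fintype ι] [DecidableEq ι] {M M' : Matrix ι ι ℂ} (h : Φ M = Φ M') :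
    M = M' := EquivLike.injective (Φ (ι := ι)) h

theorem Φ_surj {ι : Type} [Fintype ι] [DecidableEq ι] (P : BB ι) : ∃ M : Matrix ι ι ℂ, Φ M = P :=
  EquivLike.surjective (Φ (ι := ι)) P

/-- The contradiction. -/
theorem no_exact {ι : Type} [Fintype ι] [DecidableEq ι] [Nonempty ι] {x y A : Matrix ι ι ℂ}
    (hx : xᴴ * x = 1) (hy : yᴴ * y = 1)
    (hgap : ∀ Z : Matrix ι ι ℂ, trace Z = 0 →
        hs2 Z ≤ 10000 * (hs2 (Z * x - x * Z) + hs2 (Z * y - y * Z)))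
    (hA : Aᴴ * A = 1) (hA1 : ‖A - 1‖ ≤ 1 / 25)
    (hA12 : ∀ c : ℂ, 1 / 200 ≤ ‖A ^ 12 - c • (1 : Matrix ι ι ℂ)‖)
    {X' Y' : Matrix ι ι ℂ} (hX' : X'ᴴ * X' = 1) (hY' : Y'ᴴ * Y' = 1) (hXY : X' ^ 4 = Y' ^ 3)
    {σ s : ℝ} (h1 : ‖x * A ^ 3 - X'‖ ≤ σ) (h2 : ‖y * A ^ 4 - Y'‖ ≤ σ) (h3 : ‖A ^ 12 - X' ^ 4‖ ≤ s)
    (hs : s < 1 / 200) (hσs : 2 * σ + 8 * s ≤ 1 / 250) : False := by
  have hA' : A * Aᴴ = 1 := mul_eq_one_comm.1 hA
  have hX'' : X' * X'ᴴ = 1 := mul_eq_one_comm.1 hX'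
  have hY'' : Y' * Y'ᴴ = 1 := mul_eq_one_comm.1 hY'
  set C := X' ^ 4 with hC
  have hCs : ∀ c : ℂ, C ≠ c • (1 : Matrix ι ι ℂ) := by
    intro c h
    have := hA12 c
    rw [← h] at this
    linarith
  -- commutations
  have c1 : C * X' = X' * C := by rw [hC, ← pow_succ, ← pow_succ']
  have c2 : C * Y' = Y' * C := by rw [hXY, ← pow_succ, ← pow_succ']
  have c1' : C * X'ᴴ = X'ᴴ * C := by
    calc C * X'ᴴ = (X'ᴴ * X') * C * X'ᴴ := by rw [hX', one_mul]
      _ = X'ᴴ * (X' * C) * X'ᴴ := by noncomm_ring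
      _ = X'ᴴ * C * (X' * X'ᴴ) := by rw [← c1]; noncomm_ring
      _ = _ := by rw [hX'', mul_one]
  have c2' : C * Y'ᴴ = Y'ᴴ * C := by
    calc C * Y'ᴴ = (Y'ᴴ * Y') * C * Y'ᴴ := by rw [hY', one_mul]
      _ = Y'ᴴ * (Y' * C) * Y'ᴴ := by noncomm_ring
      _ = Y'ᴴ * C * (Y' * Y'ᴴ) := by rw [← c2]; noncomm_ring
      _ = _ := by rw [hY'', mul_one]
  have tr : ∀ M M' : Matrix ι ι ℂ, M * M' = M' * M → Φ M * Φ M' = Φ M' * Φ M := by
    intro M M' h
    rw [← map_mul, h, map_mul]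
  obtain ⟨P, hP1, hP2, hP3, hP4, hP5, hP6⟩ := exists_proj (C := Φ C) (X := Φ X') (Y := Φ Y')
    (tr _ _ c1) (by have := tr _ _ c1'; rwa [← star_eq_conjTranspose, map_star] at this)
    (tr _ _ c2) (by have := tr _ _ c2'; rwa [← star_eq_conjTranspose, map_star] at this)
    (by
      intro c h
      apply hCs c
      apply Φ_inj
      rw [h, map_smul, map_one])
  -- back to matrices
  obtain ⟨Q0, rfl⟩ : ∃ Q0 : Matrix ι ι ℂ, Φ Q0 = P := Φ_surj P
  have q1 : Q0ᴴ = Q0 := by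
    apply Φ_inj
    rw [← star_eq_conjTranspose, map_star, hP1]
  have q2 : Q0 * Q0 = Q0 := by
    apply Φ_inj
    rw [map_mul, hP2]
  have q3 : Q0 ≠ 0 := fun h => hP3 (by rw [h, map_zero])
  have q4 : Q0 ≠ 1 := fun h => hP4 (by rw [h, map_one])
  have q5 : Q0 * X' = X' * Q0 := by
    apply Φ_inj
    rw [map_mul, map_mul, hP5]
  have q6 : Q0 * Y' = Y' * Q0 := by
    apply Φ_inj
    rw [map_mul, map_mul, hP6]
  have hN : (0 : ℝ) < Fintype.card ι := by exact_mod_cast Fintype.card_pos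
  -- the smaller one
  obtain ⟨Q, r1, r2, r3, r5, r6, r7⟩ : ∃ Q : Matrix ι ι ℂ, Qᴴ = Q ∧ Q * Q = Q ∧ Q ≠ 0 ∧
      Q * X' = X' * Q ∧ Q * Y' = Y' * Q ∧ hs2 Q ≤ Fintype.card ι / 2 := by
    have htr : ∀ M : Matrix ι ι ℂ, Mᴴ = M → M * M = M → ((hs2 M : ℝ) : ℂ) = trace M := by
      intro M h h'
      rw [hs2_eq_trace, h, h']
    have e1 : (1 - Q0)ᴴ = 1 - Q0 := by rw [conjTranspose_sub, conjTranspose_one, q1]
    have e2 : (1 - Q0) * (1 - Q0) = 1 - Q0 := by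
      rw [mul_sub, sub_mul, sub_mul, one_mul, mul_one, q2, one_mul]; abel
    have e3 : hs2 Q0 + hs2 (1 - Q0) = Fintype.card ι := by
      have : ((hs2 Q0 + hs2 (1 - Q0) : ℝ) : ℂ) = ((Fintype.card ι : ℝ) : ℂ) := by
        push_cast
        rw [htr _ q1 q2, htr _ e1 e2, trace_sub, trace_one]
        ring
      exact_mod_cast this
    rcases le_total (hs2 Q0) (Fintype.card ι / 2) with h | h
    · exact ⟨Q0, q1, q2, q3, q5, q6, h⟩
    · refine ⟨1 - Q0, e1, e2, sub_ne_zero.2 q4.symm, ?_, ?_, by linarith⟩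
      · rw [sub_mul, mul_sub, one_mul, mul_one, q5]
      · rw [sub_mul, mul_sub, one_mul, mul_one, q6]
  set r := hs2 Q with hr
  have hr0 : 0 < r := by
    refine lt_of_le_of_ne (hs2_nonneg Q) fun h => r3 ?_
    have h0 : hs2 Q = 0 := h.symm
    ext i j
    rw [hs2, Finset.sum_eq_zero_iff_of_nonneg fun _ _ =>
      Finset.sum_nonneg fun _ _ => sq_nonneg _] at h0
    have h4 := h0 i (Finset.mem_univ _)
    rw [Finset.sum_eq_zero_iff_of_nonneg fun _ _ => sq_nonneg _] at h4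
    have h5 := h4 j (Finset.mem_univ _)
    exact norm_eq_zero.1 (pow_eq_zero_iff two_ne_zero |>.1 h5)
  have htrQ : trace Q = ((r : ℝ) : ℂ) := by rw [hr, hs2_eq_trace, r1, r2]
  -- the traceless matrix
  let c : ℝ := r / Fintype.card ι
  let T : Matrix ι ι ℂ := Q - (c : ℂ) • 1
  have hNC : (Fintype.card ι : ℂ) ≠ 0 := by exact_mod_cast hN.ne'
  have hT0 : trace T = 0 := by
    show trace (Q - (c : ℂ) • 1) = 0
    rw [trace_sub, trace_smul, trace_one, htrQ, smul_eq_mul]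
    show (r : ℂ) - ((r / Fintype.card ι : ℝ) : ℂ) * (Fintype.card ι : ℂ) = 0
    push_cast
    field_simp
    ring
  have hT2 : hs2 T = r - r ^ 2 / Fintype.card ι := by
    have : ((hs2 T : ℝ) : ℂ) = ((r - r ^ 2 / Fintype.card ι : ℝ) : ℂ) := by
      have e : Tᴴ * T = Q - (2 * c : ℂ) • Q + (c ^ 2 : ℂ) • 1 := by
        show (Q - (c : ℂ) • 1)ᴴ * (Q - (c : ℂ) • 1) = _
        rw [conjTranspose_sub, conjTranspose_smul, conjTranspose_one, r1]
        have : star (c : ℂ) = (c : ℂ) := Complex.conj_ofReal c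
        rw [this, sub_mul, mul_sub, mul_sub, r2, mul_smul_comm, mul_one, smul_mul_assoc, one_mul,
          smul_mul_smul_comm, one_mul, two_mul, add_smul, sq]
        abel
      rw [hs2_eq_trace, e, trace_add, trace_sub, trace_smul, trace_smul, trace_one, htrQ,
        smul_eq_mul, smul_eq_mul]
      show (r : ℂ) - 2 * ((r / Fintype.card ι : ℝ) : ℂ) * r +
        ((r / Fintype.card ι : ℝ) : ℂ) ^ 2 * (Fintype.card ι : ℂ) = _
      push_cast
      field_simp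
      ring
    exact_mod_cast this
  have hT3 : r / 2 ≤ hs2 T := by
    rw [hT2]
    have : r ^ 2 / Fintype.card ι ≤ r / 2 := by
      rw [div_le_iff₀ hN]
      nlinarith
    linarith
  have hcx : ∀ M : Matrix ι ι ℂ, T * M - M * T = Q * M - M * Q := by
    intro M
    show (Q - (c : ℂ) • 1) * M - M * (Q - (c : ℂ) • 1) = _
    rw [sub_mul, mul_sub, smul_mul_assoc, mul_smul_comm, one_mul, mul_one]
    abel
  have hg := hgap T hT0
  rw [hcx, hcx] at hg
  have hCQ : Q * C = C * Q := by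
    have : Commute Q X' := r5
    exact (this.pow_right 4)
  have k1 := hs_comm_x hx hA hA' hA1 r1 (m := 3) (by norm_num) r5 hCQ h1 h3
  have k2 := hs_comm_x hy hA hA' hA1 r1 (m := 4) (by norm_num) r6 hCQ h2 h3
  have hQn := hs_nonneg Q
  have hQ2 : Pool.Agent.R710.QM.hs Q ^ 2 = r := hs_sq Q
  have l1 : hs2 (Q * x - x * Q) ≤ (1 / 250) ^ 2 * r := by
    rw [← hs_sq, ← hQ2, ← mul_pow]
    refine pow_le_pow_left₀ (hs_nonneg _) (k1.trans ?_) 2
    gcongr
  have l2 : hs2 (Q * y - y * Q) ≤ (1 / 250) ^ 2 * r := by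
    rw [← hs_sq, ← hQ2, ← mul_pow]
    refine pow_le_pow_left₀ (hs_nonneg _) (k2.trans ?_) 2
    gcongr
  linarith

end Pool.Agent.R710.QM
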