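import Mathlib

/-!
# A spectral gap for the action of `SL(2,Z)` on `(Z/N)²` away from the origin
-/

set_option autoImplicit false

namespace Pool.Agent.R710.QM

open ZMod

variable {N : ℕ} [NeZero N]

/-- The pairs. -/
abbrev PP (N : ℕ) : Type := ZMod N × ZMod N

/-- `(a,b) ↦ (-b,a)` -/
def gS : PP N ≃ PP N where
  toFun u := (-u.2, u.1)
  invFun u := (u.2, -u.1)
  left_inv u := by simp
  right_inv u := by simp

/-- `(a,b) ↦ (a,a+b)` -/
def gT : PP N ≃ PP N where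
  toFun u := (u.1, u.1 + u.2)
  invFun u := (u.1, u.2 - u.1)
  left_inv u := by simp
  right_inv u := by simp

/-- The squared variation. -/
def qq (F : PP N → ℝ) (g : PP N ≃ PP N) : ℝ := ∑ u, (F (g u) - F u) ^ 2

/-- The mass. -/
def mass (F : PP N → ℝ) : ℝ := ∑ u, F u ^ 2

theorem qq_nonneg (F : PP N → ℝ) (g : PP N ≃ PP N) : 0 ≤ qq F g :=
  Finset.sum_nonneg fun _ _ => sq_nonneg _

theorem qq_symm (F : PP N → ℝ) (g : PP N ≃ PP N) : qq F g.symm = qq F g := by
  rw [qq, qq]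
  refine Fintype.sum_equiv g.symm _ _ fun u => ?_
  rw [Equiv.apply_symm_apply]
  ring

theorem qq_trans (F : PP N → ℝ) (g h : PP N ≃ PP N) :
    qq F (h.trans g) ≤ 2 * qq F g + 2 * qq F h := by
  have h1 : qq F g = ∑ u, (F (g (h u)) - F (h u)) ^ 2 := by
    rw [qq]
    exact (Equiv.sum_comp h fun u => (F (g u) - F u) ^ 2).symm
  rw [h1, qq, qq, Finset.mul_sum, Finset.mul_sum, ← Finset.sum_add_distrib]
  refine Finset.sum_le_sum fun u _ => ?_
  rw [Equiv.trans_apply]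
  nlinarith [sq_nonneg ((F (g (h u)) - F (h u)) - (F (h u) - F u))]

theorem mass_nonneg (F : PP N → ℝ) : 0 ≤ mass F := Finset.sum_nonneg fun _ _ => sq_nonneg _

theorem mass_comp (F : PP N → ℝ) (g : PP N ≃ PP N) : ∑ u, F (g u) ^ 2 = mass F :=
  Equiv.sum_comp g fun u => F u ^ 2

theorem meas_le (F : PP N → ℝ) (g : PP N ≃ PP N) (E : Finset (PP N)) :
    ∑ u ∈ E, F u ^ 2 ≤ ∑ u ∈ E, F (g u) ^ 2 + 8 * qq F g + mass F / 8 := by
  have h1 : ∑ u ∈ E, (F u ^ 2 - F (g u) ^ 2) ≤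
      ∑ u ∈ E, (8 * (F (g u) - F u) ^ 2 + (F u ^ 2 + F (g u) ^ 2) / 16) := by
    refine Finset.sum_le_sum fun u _ => ?_
    nlinarith [sq_nonneg (16 * (F u - F (g u)) - (F u + F (g u))),
      sq_nonneg (F u - F (g u))]
  have h2 : ∑ u ∈ E, (8 * (F (g u) - F u) ^ 2 + (F u ^ 2 + F (g u) ^ 2) / 16) ≤
      ∑ u, (8 * (F (g u) - F u) ^ 2 + (F u ^ 2 + F (g u) ^ 2) / 16) :=
    Finset.sum_le_univ_sum_of_nonneg fun u => by positivity
  have h3 : ∑ u, (8 * (F (g u) - F u) ^ 2 + (F u ^ 2 + F (g u) ^ 2) / 16) =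
      8 * qq F g + mass F / 8 := by
    rw [Finset.sum_add_distrib, ← Finset.mul_sum, ← Finset.sum_div, Finset.sum_add_distrib,
      mass_comp]
    simp only [qq, mass]
    ring
  rw [Finset.sum_sub_distrib] at h1
  linarith

/-- Two disjoint images. -/
theorem two_images (F : PP N → ℝ) (g g' : PP N ≃ PP N) (E E' : Finset (PP N))
    (h1 : ∀ u ∈ E, g u ∈ E') (h2 : ∀ u ∈ E, g' u ∈ E') (h3 : ∀ u ∈ E, ∀ v ∈ E, g u ≠ g' v) :
    2 * ∑ u ∈ E, F u ^ 2 ≤ ∑ u ∈ E', F u ^ 2 + 8 * qq F g + 8 * qq F g' + mass F / 4 := by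
  have h4 := meas_le F g E
  have h5 := meas_le F g' E
  have h6 : ∑ u ∈ E, F (g u) ^ 2 + ∑ u ∈ E, F (g' u) ^ 2 ≤ ∑ u ∈ E', F u ^ 2 := by
    rw [← Finset.sum_image (f := fun u => F u ^ 2) (g := g) (s := E) (g.injective.injOn),
      ← Finset.sum_image (f := fun u => F u ^ 2) (g := g') (s := E) (g'.injective.injOn),
      ← Finset.sum_union]
    · refine Finset.sum_le_sum_of_subset_of_nonneg ?_ fun _ _ _ => sq_nonneg _
      intro v hv
      rw [Finset.mem_union, Finset.mem_image, Finset.mem_image] at hv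
      rcases hv with ⟨u, hu, rfl⟩ | ⟨u, hu, rfl⟩
      · exact h1 u hu
      · exact h2 u hu
    · rw [Finset.disjoint_left]
      intro v hv hv'
      rw [Finset.mem_image] at hv hv'
      obtain ⟨u, hu, rfl⟩ := hv
      obtain ⟨u', hu', h⟩ := hv'
      exact h3 u hu u' hu' h.symm
  linarith

/-- The representatives of small absolute value. -/
abbrev rep (a : ZMod N) : ℤ := a.valMinAbs

/-- small elements -/
def Small (a : ZMod N) : Prop := 8 * |rep a| < N

instance (a : ZMod N) : Decidable (Small a) := inferInstanceAs (Decidable (8 * |rep a| < N))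

theorem rep_eq {a : ZMod N} {z : ℤ} (h : (z : ZMod N) = a) (hz : 2 * |z| < N) : rep a = z := by
  rw [rep, ZMod.valMinAbs_spec]
  refine ⟨h.symm, ?_, ?_⟩
  · have := neg_abs_le z; linarith
  · have := le_abs_self z; linarith

/-- The square of `gT`. -/
def gT2 : PP N ≃ PP N := gT.trans gT

theorem gT2_apply (u : PP N) : gT2 u = (u.1, 2 * u.1 + u.2) := by
  rw [gT2, Equiv.trans_apply]
  show (u.1, u.1 + (u.1 + u.2)) = _
  congr 1; ring

theorem gT2_symm_apply (u : PP N) : gT2.symm u = (u.1, u.2 - 2 * u.1) := by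
  rw [Equiv.symm_apply_eq, gT2_apply]
  ext
  · rfl
  · show u.2 = 2 * u.1 + (u.2 - 2 * u.1)
    ring

/-- The other unipotent element. -/
def gR2 : PP N ≃ PP N := (gS.symm.trans gT2).trans gS

theorem gR2_apply (u : PP N) : gR2 u = (u.1 - 2 * u.2, u.2) := by
  rw [gR2, Equiv.trans_apply, Equiv.trans_apply, gT2_apply]
  show (-(2 * u.2 + -u.1), u.2) = _
  congr 1; ring

theorem gR2_symm_apply (u : PP N) : gR2.symm u = (u.1 + 2 * u.2, u.2) := by
  rw [Equiv.symm_apply_eq, gR2_apply]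
  ext
  · show u.1 = u.1 + 2 * u.2 - 2 * u.2
    ring
  · rfl

theorem rep_lin {a b : ZMod N} (ha : Small a) (hb : Small b) (s : ℤ) (hs : |s| ≤ 2) :
    rep ((s : ZMod N) * a + b) = s * rep a + rep b := by
  apply rep_eq
  · simp
  · have h1 : |s * rep a + rep b| ≤ |s| * |rep a| + |rep b| := by
      rw [← abs_mul]; exact abs_add_le _ _
    have h2 : |s| * |rep a| ≤ 2 * |rep a| := mul_le_mul_of_nonneg_right hs (abs_nonneg _)
    unfold Small at ha hb
    linarith

omit [NeZero N] in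
theorem rep_eq_zero {a : ZMod N} : rep a = 0 ↔ a = 0 := ZMod.valMinAbs_eq_zero a

theorem rep_pos2 {a b : ZMod N} (ha : Small a) (hb : Small b) :
    rep (2 * a + b) = 2 * rep a + rep b := by
  have := rep_lin ha hb 2 (by norm_num)
  push_cast at this
  exact this

theorem rep_neg2 {a b : ZMod N} (ha : Small a) (hb : Small b) :
    rep (b - 2 * a) = rep b - 2 * rep a := by
  have := rep_lin ha hb (-2) (by norm_num)
  push_cast at this
  rw [show b - 2 * a = -2 * a + b by ring, this]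
  ring

/-- arithmetic of the ping-pong -/
theorem pp_arith {α β : ℤ} (h : |β| ≤ |α|) : |α| ≤ |2 * α + β| ∧ |α| ≤ |β - 2 * α| := by
  have h1 : |2 * α| = 2 * |α| := by rw [abs_mul]; rfl
  have h2 : |2 * α| ≤ |2 * α + β| + |β| := by
    have := abs_sub (2 * α + β) β
    rwa [add_sub_cancel_right] at this
  have h3 : |2 * α| ≤ |β - 2 * α| + |β| := by
    have := abs_sub β (β - 2 * α)
    rw [sub_sub_cancel] at this
    linarith
  constructor <;> linarith

theorem pp_disj {α β β' : ℤ} (h : |β| ≤ |α|) (h' : |β'| ≤ |α|) (he : 2 * α + β = β' - 2 * α) :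
    α = 0 ∧ β = 0 := by
  have h1 : 4 * α = β' - β := by linarith
  have h2 : |4 * α| = 4 * |α| := by rw [abs_mul]; rfl
  have h3 : |β' - β| ≤ |β'| + |β| := abs_sub _ _
  rw [← h1, h2] at h3
  have h4 : |α| = 0 := le_antisymm (by linarith) (abs_nonneg _)
  refine ⟨abs_eq_zero.1 h4, abs_eq_zero.1 (le_antisymm (by linarith) (abs_nonneg _))⟩

/-- small and more horizontal -/
def Eh (N : ℕ) [NeZero N] : Finset (PP N) :=
  Finset.univ.filter fun u => Small u.1 ∧ Small u.2 ∧ u ≠ 0 ∧ |rep u.2| ≤ |rep u.1|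
/-- small and more vertical -/
def Ev (N : ℕ) [NeZero N] : Finset (PP N) :=
  Finset.univ.filter fun u => Small u.1 ∧ Small u.2 ∧ u ≠ 0 ∧ |rep u.1| ≤ |rep u.2|
/-- more horizontal -/
def Gh (N : ℕ) [NeZero N] : Finset (PP N) :=
  Finset.univ.filter fun u => |rep u.2| ≤ |rep u.1|
/-- more vertical -/
def Gv (N : ℕ) [NeZero N] : Finset (PP N) :=
  Finset.univ.filter fun u => |rep u.1| ≤ |rep u.2|

theorem images_T (F : PP N → ℝ) :
    2 * ∑ u ∈ Eh N, F u ^ 2 ≤ ∑ u ∈ Gv N, F u ^ 2 + 16 * qq F gT2 + mass F / 4 := by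
  have := two_images F gT2 gT2.symm (Eh N) (Gv N) ?_ ?_ ?_
  · rw [qq_symm] at this; linarith
  · intro u hu
    simp only [Eh, Gv, Finset.mem_filter, Finset.mem_univ, true_and] at hu ⊢
    obtain ⟨h1, h2, -, h4⟩ := hu
    rw [gT2_apply]
    show |rep u.1| ≤ |rep (2 * u.1 + u.2)|
    rw [rep_pos2 h1 h2]
    exact (pp_arith h4).1
  · intro u hu
    simp only [Eh, Gv, Finset.mem_filter, Finset.mem_univ, true_and] at hu ⊢
    obtain ⟨h1, h2, -, h4⟩ := hu
    rw [gT2_symm_apply]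
    show |rep u.1| ≤ |rep (u.2 - 2 * u.1)|
    rw [rep_neg2 h1 h2]
    exact (pp_arith h4).2
  · intro u hu v hv he
    simp only [Eh, Finset.mem_filter, Finset.mem_univ, true_and] at hu hv
    obtain ⟨h1, h2, h3, h4⟩ := hu
    obtain ⟨h1', h2', -, h4'⟩ := hv
    rw [gT2_apply, gT2_symm_apply, Prod.mk.injEq] at he
    obtain ⟨e1, e2⟩ := he
    rw [← e1] at h4' h1' e2
    have e3 := congrArg rep e2
    rw [rep_pos2 h1 h2, rep_neg2 h1 h2'] at e3
    have e4 := pp_disj h4 h4' e3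
    apply h3
    ext
    · exact rep_eq_zero.1 e4.1
    · exact rep_eq_zero.1 e4.2

theorem images_R (F : PP N → ℝ) :
    2 * ∑ u ∈ Ev N, F u ^ 2 ≤ ∑ u ∈ Gh N, F u ^ 2 + 16 * qq F gR2 + mass F / 4 := by
  have := two_images F gR2.symm gR2 (Ev N) (Gh N) ?_ ?_ ?_
  · rw [qq_symm] at this; linarith
  · intro u hu
    simp only [Ev, Gh, Finset.mem_filter, Finset.mem_univ, true_and] at hu ⊢
    obtain ⟨h1, h2, -, h4⟩ := hu
    rw [gR2_symm_apply]
    show |rep u.2| ≤ |rep (u.1 + 2 * u.2)|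
    rw [add_comm, rep_pos2 h2 h1]
    exact (pp_arith h4).1
  · intro u hu
    simp only [Ev, Gh, Finset.mem_filter, Finset.mem_univ, true_and] at hu ⊢
    obtain ⟨h1, h2, -, h4⟩ := hu
    rw [gR2_apply]
    show |rep u.2| ≤ |rep (u.1 - 2 * u.2)|
    rw [rep_neg2 h2 h1]
    exact (pp_arith h4).2
  · intro u hu v hv he
    simp only [Ev, Finset.mem_filter, Finset.mem_univ, true_and] at hu hv
    obtain ⟨h1, h2, h3, h4⟩ := hu
    obtain ⟨h1', h2', -, h4'⟩ := hv
    rw [gR2_symm_apply, gR2_apply, Prod.mk.injEq] at he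
    obtain ⟨e2, e1⟩ := he
    rw [← e1] at h4' h2' e2
    have e3 := congrArg rep e2
    rw [add_comm, rep_pos2 h2 h1, rep_neg2 h2 h1'] at e3
    have e4 := pp_disj h4 h4' e3
    apply h3
    ext
    · exact rep_eq_zero.1 e4.2
    · exact rep_eq_zero.1 e4.1

/-- The mass of the complement of the small elements. -/
def bad (F : PP N → ℝ) : ℝ := ∑ u ∈ Finset.univ.filter (fun u : PP N => ¬ (Small u.1 ∧ Small u.2)),
  F u ^ 2

theorem gap_aux (F : PP N → ℝ) (h0 : F 0 = 0) :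
    mass F ≤ 6 * bad F + 32 * (qq F gT2 + qq F gR2) := by
  have h1 := images_T F
  have h2 := images_R F
  have hsub : ∀ (E E' : Finset (PP N)), (∀ u ∈ E, u ≠ 0 → Small u.1 ∧ Small u.2 → u ∈ E') →
      ∑ u ∈ E, F u ^ 2 ≤ ∑ u ∈ E', F u ^ 2 + bad F := by
    intro E E' h
    have h3 : ∑ u ∈ E, F u ^ 2 = ∑ u ∈ E.filter (fun u => u ≠ 0), F u ^ 2 := by
      rw [Finset.sum_filter]
      refine Finset.sum_congr rfl fun u _ => ?_
      split_ifs with hu
      · rfl
      · push Not at hu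
        rw [hu, h0]; norm_num
    rw [h3, bad]
    calc ∑ u ∈ E.filter (fun u => u ≠ 0), F u ^ 2
        ≤ ∑ u ∈ E' ∪ Finset.univ.filter (fun u : PP N => ¬ (Small u.1 ∧ Small u.2)), F u ^ 2 := by
          refine Finset.sum_le_sum_of_subset_of_nonneg ?_ fun _ _ _ => sq_nonneg _
          intro u hu
          rw [Finset.mem_filter] at hu
          rw [Finset.mem_union, Finset.mem_filter]
          by_cases hs : Small u.1 ∧ Small u.2
          · exact Or.inl (h u hu.1 hu.2 hs)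
          · exact Or.inr ⟨Finset.mem_univ _, hs⟩
      _ ≤ _ := by
          rw [← Finset.sum_union_inter]
          have : 0 ≤ ∑ u ∈ E' ∩ Finset.univ.filter (fun u : PP N => ¬ (Small u.1 ∧ Small u.2)),
            F u ^ 2 := Finset.sum_nonneg fun _ _ => sq_nonneg _
          linarith
  have h3 := hsub (Gv N) (Ev N) (fun u hu h0 hs => by
    simp only [Ev, Gv, Finset.mem_filter, Finset.mem_univ, true_and] at hu ⊢
    exact ⟨hs.1, hs.2, h0, hu⟩)
  have h4 := hsub (Gh N) (Eh N) (fun u hu h0 hs => by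
    simp only [Eh, Gh, Finset.mem_filter, Finset.mem_univ, true_and] at hu ⊢
    exact ⟨hs.1, hs.2, h0, hu⟩)
  have h5 := hsub Finset.univ (Eh N ∪ Ev N) (fun u _ h0 hs => by
    simp only [Eh, Ev, Finset.mem_union, Finset.mem_filter, Finset.mem_univ, true_and]
    rcases le_total |rep u.2| |rep u.1| with h | h
    · exact Or.inl ⟨hs.1, hs.2, h0, h⟩
    · exact Or.inr ⟨hs.1, hs.2, h0, h⟩)
  have h6 : ∑ u ∈ Eh N ∪ Ev N, F u ^ 2 ≤ ∑ u ∈ Eh N, F u ^ 2 + ∑ u ∈ Ev N, F u ^ 2 := by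
    rw [← Finset.sum_union_inter]
    have : 0 ≤ ∑ u ∈ Eh N ∩ Ev N, F u ^ 2 := Finset.sum_nonneg fun _ _ => sq_nonneg _
    linarith
  have h7 : mass F = ∑ u ∈ Finset.univ, F u ^ 2 := rfl
  linarith

theorem norm_char_sub_one {a : ZMod N} (ha : ¬ Small a) :
    1 / 2 ≤ ‖ZMod.stdAddChar a - 1‖ := by
  have h1 : ZMod.stdAddChar a = Complex.exp (Complex.I * ((2 * Real.pi * rep a / N : ℝ) : ℂ)) := by
    conv_lhs => rw [← ZMod.coe_valMinAbs a]
    rw [ZMod.stdAddChar_coe]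
    congr 1
    push_cast
    ring
  have hN : (0 : ℝ) < N := by exact_mod_cast Nat.pos_of_ne_zero (NeZero.ne N)
  have h2 : (N : ℝ) ≤ 8 * |(rep a : ℝ)| := by
    unfold Small at ha
    push Not at ha
    exact_mod_cast ha
  have h3 : 2 * |(rep a : ℝ)| ≤ N := by
    have := ZMod.valMinAbs_mem_Ioc a
    have h4 : |rep a * 2| ≤ N := by
      rw [abs_le]; exact ⟨this.1.le, this.2⟩
    rw [abs_mul] at h4
    have h5 : |rep a| * 2 ≤ N := h4
    have h6 : ((|rep a| * 2 : ℤ) : ℝ) ≤ N := by exact_mod_cast h5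
    push_cast at h6
    linarith
  rw [h1, Complex.norm_exp_I_mul_ofReal_sub_one, Real.norm_eq_abs, abs_mul, abs_two]
  have h4 : |Real.sin (2 * Real.pi * rep a / N / 2)| = |Real.sin (Real.pi * |(rep a : ℝ)| / N)| := by
    rcases abs_cases (rep a : ℝ) with ⟨h, -⟩ | ⟨h, -⟩
    · rw [h]; congr 2; ring
    · rw [h]
      rw [show Real.pi * -(rep a : ℝ) / N = -(2 * Real.pi * rep a / N / 2) by ring, Real.sin_neg,
        abs_neg]
  rw [h4]
  have h5 := Real.mul_le_sin (x := Real.pi * |(rep a : ℝ)| / N) (by positivity) (by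
    rw [div_le_iff₀ hN]
    nlinarith [Real.pi_pos])
  have h6 : 2 / Real.pi * (Real.pi * |(rep a : ℝ)| / N) = 2 * |(rep a : ℝ)| / N := by
    field_simp
  rw [h6] at h5
  have h7 : 1 / 4 ≤ 2 * |(rep a : ℝ)| / N := by
    rw [le_div_iff₀ hN]; linarith
  have h8 := le_abs_self (Real.sin (Real.pi * |(rep a : ℝ)| / N))
  linarith

/-- The weighted mass for the two characters. -/
noncomputable def wmass (F : PP N → ℝ) : ℝ :=
  ∑ u, ‖ZMod.stdAddChar u.1 - 1‖ ^ 2 * F u ^ 2 + ∑ u, ‖ZMod.stdAddChar u.2 - 1‖ ^ 2 * F u ^ 2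

theorem bad_le (F : PP N → ℝ) : bad F ≤ 4 * wmass F := by
  rw [bad, wmass, ← Finset.sum_add_distrib, Finset.mul_sum, Finset.sum_filter]
  refine Finset.sum_le_sum fun u _ => ?_
  have hF : 0 ≤ F u ^ 2 := sq_nonneg _
  have e1 : 0 ≤ ‖ZMod.stdAddChar u.1 - 1‖ ^ 2 * F u ^ 2 := by positivity
  have e2 : 0 ≤ ‖ZMod.stdAddChar u.2 - 1‖ ^ 2 * F u ^ 2 := by positivity
  by_cases h : Small u.1 ∧ Small u.2
  · rw [if_neg (not_not.2 h)]
    linarith
  · rw [if_pos h]
    have h' : ¬ Small u.1 ∨ ¬ Small u.2 := by tauto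
    have key : ∀ a : ZMod N, ¬ Small a → F u ^ 2 ≤ 4 * (‖ZMod.stdAddChar a - 1‖ ^ 2 * F u ^ 2) := by
      intro a ha
      have h1 := norm_char_sub_one ha
      have h2 : 1 / 4 ≤ ‖ZMod.stdAddChar a - 1‖ ^ 2 := by nlinarith
      nlinarith
    rcases h' with h | h
    · linarith [key _ h]
    · linarith [key _ h]

/-- The spectral gap. -/
theorem gap (F : PP N → ℝ) (h0 : F 0 = 0) :
    mass F ≤ 2000 * (qq F gS + qq F (gT.trans gS)) + 24 * wmass F := by
  have h1 := gap_aux F h0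
  have h2 := bad_le F
  have hT : qq F gT ≤ 2 * qq F gS + 2 * qq F (gT.trans gS) := by
    have := qq_trans F gS.symm (gT.trans gS)
    rw [qq_symm] at this
    have e : (gT.trans gS).trans gS.symm = (gT : PP N ≃ PP N) := by
      ext u <;> simp
    rwa [e] at this
  have hT2 : qq F gT2 ≤ 4 * qq F gT := by
    have := qq_trans F gT gT
    have e : qq F (gT.trans gT) = qq F gT2 := rfl
    linarith
  have hR2 : qq F gR2 ≤ 2 * qq F gS + 2 * (2 * qq F gT2 + 2 * qq F gS) := by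
    have e1 := qq_trans F gS (gS.symm.trans gT2)
    have e2 := qq_trans F gT2 gS.symm
    rw [qq_symm] at e2
    have e3 : qq F ((gS.symm.trans gT2).trans gS) = qq F gR2 := rfl
    linarith
  have := qq_nonneg F gS
  have := qq_nonneg F (gT.trans gS)
  linarith

end Pool.Agent.R710.QM
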