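import Mathlib
import Pool.Agent.R710.QM.HS
import Pool.Agent.R710.QM.Gap

/-!
# Weyl operators and metaplectic operators over `Z/N`
-/

set_option autoImplicit false

open Matrix

namespace Pool.Agent.R710.QM

variable {N : ℕ} [NeZero N]

/-- The standard character. -/
noncomputable abbrev ψ : AddChar (ZMod N) ℂ := ZMod.stdAddChar

theorem norm_psi (x : ZMod N) : ‖ψ x‖ = 1 := AddChar.norm_apply _ _

theorem psi_ne (x : ZMod N) : ψ x ≠ 0 := fun h => by
  have := norm_psi x
  rw [h, norm_zero] at this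
  exact zero_ne_one this

theorem star_psi (x : ZMod N) : star (ψ x) = ψ (-x) := (AddChar.map_neg_eq_conj _ _).symm

theorem psi_mul_star (x : ZMod N) : ψ x * star (ψ x) = 1 := by
  rw [star_psi, ← AddChar.map_add_eq_mul, add_neg_cancel, AddChar.map_zero_eq_one]

theorem star_psi_mul (x : ZMod N) : star (ψ x) * ψ x = 1 := by rw [mul_comm, psi_mul_star]

theorem sum_psi (b : ZMod N) : ∑ x : ZMod N, ψ (x * b) = if b = 0 then (N : ℂ) else 0 := by
  rw [AddChar.sum_mulShift b (ZMod.isPrimitive_stdAddChar N), ZMod.card]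
  split_ifs <;> simp

/-- Weyl operators -/
noncomputable def W (u : PP N) : Matrix (ZMod N) (ZMod N) ℂ :=
  Matrix.of fun x y => if x = y + u.1 then ψ (u.2 * y) else 0

theorem W_apply (u : PP N) (x y : ZMod N) : W u x y = if x = y + u.1 then ψ (u.2 * y) else 0 := rfl

theorem W_mul (u v : PP N) : W u * W v = ψ (u.2 * v.1) • W (u + v) := by
  ext x y
  rw [Matrix.mul_apply, Matrix.smul_apply, Finset.sum_eq_single (y + v.1)]
  · rw [W_apply, W_apply, W_apply, if_pos rfl]
    have h : x = y + v.1 + u.1 ↔ x = y + (u + v).1 := by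
      rw [Prod.fst_add, add_assoc, add_comm v.1]
    by_cases hx : x = y + v.1 + u.1
    · rw [if_pos hx, if_pos (h.1 hx), smul_eq_mul, ← AddChar.map_add_eq_mul,
        ← AddChar.map_add_eq_mul]
      congr 1
      rw [Prod.snd_add]; ring
    · rw [if_neg hx, if_neg (fun h' => hx (h.2 h')), zero_mul, smul_zero]
  · intro z _ hz
    rw [W_apply v z y, if_neg hz, mul_zero]
  · intro h; exact absurd (Finset.mem_univ _) h

theorem W_zero : W (0 : PP N) = 1 := by
  ext x y
  rw [W_apply, Matrix.one_apply]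
  simp

theorem W_star (u : PP N) : (W u)ᴴ = ψ (u.1 * u.2) • W (-u) := by
  ext x y
  rw [Matrix.conjTranspose_apply, Matrix.smul_apply, W_apply, W_apply]
  have h : y = x + u.1 ↔ x = y + (-u).1 := by
    rw [Prod.fst_neg]
    constructor
    · intro h; rw [h]; ring
    · intro h; rw [h]; ring
  by_cases hy : y = x + u.1
  · rw [if_pos hy, if_pos (h.1 hy), star_psi, smul_eq_mul, ← AddChar.map_add_eq_mul]
    congr 1
    rw [Prod.snd_neg, hy]; ring
  · rw [if_neg hy, if_neg (fun h' => hy (h.2 h')), star_zero, smul_zero]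

theorem W_star_mul (u : PP N) : (W u)ᴴ * W u = 1 := by
  rw [W_star, smul_mul_assoc, W_mul, neg_add_cancel, W_zero, smul_smul, ← AddChar.map_add_eq_mul]
  have : u.1 * u.2 + (-u).2 * u.1 = 0 := by rw [Prod.snd_neg]; ring
  rw [this, AddChar.map_zero_eq_one, one_smul]

theorem W_mul_star (u : PP N) : W u * (W u)ᴴ = 1 := mul_eq_one_comm.1 (W_star_mul u)

/-- Fourier transform -/
noncomputable def Fm (N : ℕ) [NeZero N] : Matrix (ZMod N) (ZMod N) ℂ :=
  Matrix.of fun x y => ((Real.sqrt N)⁻¹ : ℂ) * ψ (x * y)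

/-- parity -/
noncomputable def Pm (N : ℕ) [NeZero N] : Matrix (ZMod N) (ZMod N) ℂ :=
  Matrix.of fun x y => if x = -y then 1 else 0

/-- chirp -/
noncomputable def Tm (h : ZMod N) : Matrix (ZMod N) (ZMod N) ℂ :=
  Matrix.diagonal fun y => ψ (h * y ^ 2)

theorem sqrt_inv_mul : ((Real.sqrt N)⁻¹ : ℂ) * ((Real.sqrt N)⁻¹ : ℂ) * (N : ℂ) = 1 := by
  have hN : (0 : ℝ) < N := by exact_mod_cast Nat.pos_of_ne_zero (NeZero.ne N)
  have h1 : ((Real.sqrt N : ℝ) : ℂ) * (Real.sqrt N : ℝ) = (N : ℂ) := by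
    rw [← Complex.ofReal_mul, Real.mul_self_sqrt hN.le]; simp
  have h2 : ((Real.sqrt N : ℝ) : ℂ) ≠ 0 := by
    rw [Complex.ofReal_ne_zero]; exact (Real.sqrt_pos.2 hN).ne'
  rw [← mul_inv, h1]
  have h3 : (N : ℂ) ≠ 0 := by rw [← h1]; exact mul_ne_zero h2 h2
  exact inv_mul_cancel₀ h3

theorem Fm_mul_Fm : Fm N * Fm N = Pm N := by
  ext x y
  rw [Matrix.mul_apply, Pm, Matrix.of_apply]
  have h1 : ∀ z : ZMod N, Fm N x z * Fm N z y =
      ((Real.sqrt N)⁻¹ : ℂ) * ((Real.sqrt N)⁻¹ : ℂ) * ψ (z * (x + y)) := by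
    intro z
    rw [Fm, Matrix.of_apply, Matrix.of_apply, mul_mul_mul_comm, ← AddChar.map_add_eq_mul]
    congr 2; ring
  rw [Finset.sum_congr rfl fun z _ => h1 z, ← Finset.mul_sum, sum_psi]
  have h2 : x + y = 0 ↔ x = -y := add_eq_zero_iff_eq_neg
  by_cases h : x = -y
  · rw [if_pos (h2.2 h), if_pos h, sqrt_inv_mul]
  · rw [if_neg (fun h' => h (h2.1 h')), if_neg h, mul_zero]

theorem Pm_mul_Pm : Pm N * Pm N = 1 := by
  ext x y
  rw [Matrix.mul_apply, Finset.sum_eq_single (-y)]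
  · simp only [Pm, Matrix.of_apply, neg_neg, if_true, mul_one, Matrix.one_apply]
  · intro z _ hz
    simp only [Pm, Matrix.of_apply]
    rw [if_neg hz, mul_zero]
  · intro h; exact absurd (Finset.mem_univ _) h

theorem Fm_star_mul : (Fm N)ᴴ * Fm N = 1 := by
  have h : (Fm N)ᴴ = Pm N * Fm N := by
    ext x y
    rw [Matrix.mul_apply, Finset.sum_eq_single (-x)]
    · simp only [Pm, Fm, Matrix.of_apply, neg_neg, if_true, one_mul, Matrix.conjTranspose_apply,
        star_mul']
      rw [star_psi]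
      congr 1
      · simp
      · congr 1; ring
    · intro z _ hz
      simp only [Pm, Matrix.of_apply]
      rw [if_neg, zero_mul]
      intro h
      exact hz (by rw [h, neg_neg])
    · intro h; exact absurd (Finset.mem_univ _) h
  rw [h, Matrix.mul_assoc, Fm_mul_Fm, Pm_mul_Pm]

theorem Tm_star_mul (h : ZMod N) : (Tm h)ᴴ * Tm h = 1 := by
  rw [Tm, Matrix.diagonal_conjTranspose, Matrix.diagonal_mul_diagonal, ← Matrix.diagonal_one]
  congr 1
  funext y
  exact star_psi_mul _

theorem Pm_mul_Tm (h : ZMod N) : Pm N * Tm h = Tm h * Pm N := by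
  ext x y
  rw [Tm, Matrix.mul_diagonal, Matrix.diagonal_mul]
  simp only [Pm, Matrix.of_apply]
  split_ifs with hxy
  · rw [hxy]; simp
  · simp

theorem Pm_mul_Fm : Pm N * Fm N = Fm N * Pm N := by
  rw [← Fm_mul_Fm, Matrix.mul_assoc]

theorem Fm_mul_W (u : PP N) : Fm N * W u = ψ (-(u.1 * u.2)) • (W (gS u) * Fm N) := by
  ext x y
  rw [Matrix.mul_apply, Matrix.smul_apply, Matrix.mul_apply, Finset.sum_eq_single (y + u.1),
    Finset.sum_eq_single (x + u.2)]
  · rw [W_apply, W_apply, if_pos rfl, if_pos]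
    · simp only [Fm, Matrix.of_apply, smul_eq_mul]
      rw [mul_assoc, ← AddChar.map_add_eq_mul]
      rw [show ψ (-(u.1 * u.2)) * (ψ ((gS u).2 * (x + u.2)) *
        (((Real.sqrt N)⁻¹ : ℂ) * ψ ((x + u.2) * y))) = ((Real.sqrt N)⁻¹ : ℂ) *
          (ψ (-(u.1 * u.2)) * ψ ((gS u).2 * (x + u.2)) * ψ ((x + u.2) * y)) by ring,
        ← AddChar.map_add_eq_mul, ← AddChar.map_add_eq_mul]
      congr 2
      show x * (y + u.1) + u.2 * y = -(u.1 * u.2) + u.1 * (x + u.2) + (x + u.2) * y
      ring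
    · show x = x + u.2 + -u.2
      ring
  · intro z _ hz
    rw [W_apply, if_neg, zero_mul]
    intro h
    apply hz
    rw [h]
    show z = z + -u.2 + u.2
    ring
  · intro h; exact absurd (Finset.mem_univ _) h
  · intro z _ hz
    rw [W_apply, if_neg hz, mul_zero]
  · intro h; exact absurd (Finset.mem_univ _) h

theorem Tm_mul_W {h : ZMod N} (hh : 2 * h = 1) (u : PP N) :
    Tm h * W u = ψ (h * u.1 ^ 2) • (W (gT u) * Tm h) := by
  ext x y
  rw [Matrix.smul_apply, Tm, Matrix.diagonal_mul, Matrix.mul_diagonal, W_apply, W_apply]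
  show _ = _ • ((if x = y + u.1 then _ else _) * _)
  split_ifs with hx
  · rw [smul_eq_mul, ← AddChar.map_add_eq_mul, ← AddChar.map_add_eq_mul,
      ← AddChar.map_add_eq_mul]
    congr 1
    show h * x ^ 2 + u.2 * y = h * u.1 ^ 2 + ((u.1 + u.2) * y + h * y ^ 2)
    rw [hx]
    linear_combination (y * u.1) * hh
  · simp

theorem Pm_mul_W (u : PP N) : Pm N * W u = W (-u) * Pm N := by
  ext x y
  rw [Matrix.mul_apply, Matrix.mul_apply, Finset.sum_eq_single (-x), Finset.sum_eq_single (-y)]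
  · simp only [Pm, Matrix.of_apply, W_apply, neg_neg, if_true, one_mul, mul_one]
    have : -x = y + u.1 ↔ x = -y + (-u).1 := by
      rw [Prod.fst_neg, ← neg_add, neg_eq_iff_eq_neg]
    by_cases h : -x = y + u.1
    · rw [if_pos h, if_pos (this.1 h)]
      congr 1
      rw [Prod.snd_neg]; ring
    · rw [if_neg h, if_neg fun h' => h (this.2 h')]
  · intro z _ hz
    simp only [Pm, Matrix.of_apply]
    rw [if_neg hz, mul_zero]
  · intro h; exact absurd (Finset.mem_univ _) h
  · intro z _ hz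
    simp only [Pm, Matrix.of_apply]
    rw [if_neg, zero_mul]
    intro h
    exact hz (by rw [h, neg_neg])
  · intro h; exact absurd (Finset.mem_univ _) h

end Pool.Agent.R710.QM
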