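import Mathlib
import Pool.Agent.R710.QM.Weil

/-!
# The quantum Margulis expander
-/

set_option autoImplicit false

open Matrix

namespace Pool.Agent.R710.QM

variable {N : ℕ} [NeZero N]

/-- A matrix that commutes with all Weyl operators is scalar. -/
theorem scalar_of_comm {M : Matrix (ZMod N) (ZMod N) ℂ} (h : ∀ u : PP N, M * W u = W u * M) :
    M = M 0 0 • (1 : Matrix (ZMod N) (ZMod N) ℂ) := by
  ext x y
  rw [Matrix.smul_apply, Matrix.one_apply]
  split_ifs with hxy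
  · subst hxy
    have h1 := congrFun (congrFun (h (x, 0)) x) 0
    rw [Matrix.mul_apply, Matrix.mul_apply, Finset.sum_eq_single x,
      Finset.sum_eq_single (0 : ZMod N)] at h1
    · simpa [W_apply] using h1
    · intro z _ hz
      rw [W_apply, if_neg, zero_mul]
      intro h
      apply hz
      have : x = z + x := h
      exact (right_eq_add.1 this)
    · intro h; exact absurd (Finset.mem_univ _) h
    · intro z _ hz
      rw [W_apply, if_neg, mul_zero]
      intro h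
      apply hz
      have : z = 0 + x := h
      rw [this, zero_add]
    · intro h; exact absurd (Finset.mem_univ _) h
  · rw [smul_zero]
    have h1 := congrFun (congrFun (h (0, 1)) x) y
    rw [Matrix.mul_apply, Matrix.mul_apply, Finset.sum_eq_single y,
      Finset.sum_eq_single x] at h1
    · simp only [W_apply, add_zero, if_true, one_mul] at h1
      have h2 : M x y * (ψ y - ψ x) = 0 := by rw [mul_sub, h1]; ring
      rcases mul_eq_zero.1 h2 with h3 | h3
      · exact h3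
      · exact absurd (ZMod.injective_stdAddChar (sub_eq_zero.1 h3)).symm hxy
    · intro z _ hz
      rw [W_apply, if_neg, zero_mul]
      intro h
      apply hz
      have : x = z + 0 := h
      rw [this, add_zero]
    · intro h; exact absurd (Finset.mem_univ _) h
    · intro z _ hz
      rw [W_apply, if_neg, mul_zero]
      intro h
      apply hz
      have : z = y + 0 := h
      rw [this, add_zero]
    · intro h; exact absurd (Finset.mem_univ _) h

/-- The Weyl coefficients. -/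
noncomputable def cf (Z : Matrix (ZMod N) (ZMod N) ℂ) (u : PP N) : ℂ := trace ((W u)ᴴ * Z)

theorem cf_eq (Z : Matrix (ZMod N) (ZMod N) ℂ) (u : PP N) :
    cf Z u = ∑ y : ZMod N, star (ψ (u.2 * y)) * Z (y + u.1) y := by
  rw [cf, Matrix.trace]
  refine Finset.sum_congr rfl fun y _ => ?_
  rw [Matrix.diag_apply, Matrix.mul_apply, Finset.sum_eq_single (y + u.1)]
  · rw [Matrix.conjTranspose_apply, W_apply, if_pos rfl]
  · intro z _ hz
    rw [Matrix.conjTranspose_apply, W_apply, if_neg hz, star_zero, zero_mul]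
  · intro h; exact absurd (Finset.mem_univ _) h

theorem cf_sub (Z Z' : Matrix (ZMod N) (ZMod N) ℂ) (u : PP N) :
    cf (Z - Z') u = cf Z u - cf Z' u := by
  rw [cf, mul_sub, trace_sub, cf, cf]

theorem parseval_aux (z : ZMod N → ℂ) :
    ∑ b : ZMod N, ‖∑ y : ZMod N, star (ψ (b * y)) * z y‖ ^ 2 = N * ∑ y, ‖z y‖ ^ 2 := by
  have h : ((∑ b : ZMod N, ‖∑ y : ZMod N, star (ψ (b * y)) * z y‖ ^ 2 : ℝ) : ℂ) =
      ((N * ∑ y, ‖z y‖ ^ 2 : ℝ) : ℂ) := by
    push_cast
    calc ∑ b : ZMod N, ((‖∑ y : ZMod N, star (ψ (b * y)) * z y‖ : ℝ) : ℂ) ^ 2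
        = ∑ b : ZMod N, ∑ y : ZMod N, ∑ y' : ZMod N,
            (star (z y) * z y') * ψ (b * (y - y')) := by
          refine Finset.sum_congr rfl fun b _ => ?_
          rw [← Complex.conj_mul', map_sum, Finset.sum_mul_sum]
          refine Finset.sum_congr rfl fun y _ => Finset.sum_congr rfl fun y' _ => ?_
          have e1 : (starRingEnd ℂ) (star (ψ (b * y)) * z y) = star (z y) * ψ (b * y) := by
            rw [map_mul]
            show star (star (ψ (b * y))) * star (z y) = _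
            rw [star_star, mul_comm]
          rw [e1, star_psi, show b * (y - y') = b * y + -(b * y') by ring,
            AddChar.map_add_eq_mul]
          ring
      _ = ∑ y : ZMod N, ∑ y' : ZMod N, (star (z y) * z y') * ∑ b : ZMod N, ψ (b * (y - y')) := by
          rw [Finset.sum_comm]
          refine Finset.sum_congr rfl fun y _ => ?_
          rw [Finset.sum_comm]
          refine Finset.sum_congr rfl fun y' _ => ?_
          rw [Finset.mul_sum]
      _ = ∑ y : ZMod N, (N : ℂ) * ((‖z y‖ : ℝ) : ℂ) ^ 2 := by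
          refine Finset.sum_congr rfl fun y _ => ?_
          rw [Finset.sum_eq_single y]
          · rw [sum_psi, sub_self, if_pos rfl, ← Complex.conj_mul']
            show star (z y) * z y * (N : ℂ) = (N : ℂ) * (star (z y) * z y)
            ring
          · intro y' _ hy'
            rw [sum_psi, if_neg (sub_ne_zero.2 hy'.symm), mul_zero]
          · intro h; exact absurd (Finset.mem_univ _) h
      _ = _ := by rw [Finset.mul_sum]
  exact_mod_cast h

theorem parseval (Z : Matrix (ZMod N) (ZMod N) ℂ) : ∑ u, ‖cf Z u‖ ^ 2 = N * hs2 Z := by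
  rw [← Finset.univ_product_univ, Finset.sum_product]
  have h1 : ∀ a : ZMod N, ∑ b : ZMod N, ‖cf Z (a, b)‖ ^ 2 = N * ∑ y, ‖Z (y + a) y‖ ^ 2 := by
    intro a
    rw [← parseval_aux fun y => Z (y + a) y]
    refine Finset.sum_congr rfl fun b _ => ?_
    rw [cf_eq]
  rw [Finset.sum_congr rfl fun a _ => h1 a, ← Finset.mul_sum, hs2, Finset.sum_comm]
  congr 1
  rw [Finset.sum_comm (s := Finset.univ) (t := Finset.univ) (f := fun i j => ‖Z i j‖ ^ 2)]
  refine Finset.sum_congr rfl fun y _ => ?_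
  exact Equiv.sum_comp (Equiv.addLeft y) fun x => ‖Z x y‖ ^ 2

/-- the commutator with `g` -/
noncomputable def cm (Z g : Matrix (ZMod N) (ZMod N) ℂ) : ℝ := hs2 (Z * g - g * Z)

theorem cm_nonneg (Z g : Matrix (ZMod N) (ZMod N) ℂ) : 0 ≤ cm Z g := hs2_nonneg _

theorem cm_mul (Z : Matrix (ZMod N) (ZMod N) ℂ) {g g' : Matrix (ZMod N) (ZMod N) ℂ}
    (hg : gᴴ * g = 1) (hg' : g' * g'ᴴ = 1) : cm Z (g * g') ≤ 2 * cm Z g + 2 * cm Z g' := by
  have h : Z * (g * g') - g * g' * Z = (Z * g - g * Z) * g' + g * (Z * g' - g' * Z) := by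
    noncomm_ring
  rw [cm, h]
  refine (hs2_add_le _ _).trans ?_
  rw [hs2_unitary_right hg', hs2_unitary_left hg]
  exact le_rfl

theorem cm_star (Z : Matrix (ZMod N) (ZMod N) ℂ) {g : Matrix (ZMod N) (ZMod N) ℂ}
    (hg : gᴴ * g = 1) (hg' : g * gᴴ = 1) : cm Z gᴴ = cm Z g := by
  have h : Z * gᴴ - gᴴ * Z = -(gᴴ * (Z * g - g * Z) * gᴴ) := by
    calc Z * gᴴ - gᴴ * Z = (gᴴ * g) * Z * gᴴ - gᴴ * Z * (g * gᴴ) := by
          rw [hg, hg', one_mul, mul_one]
      _ = _ := by noncomm_ring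
  rw [cm, h, hs2_neg, hs2_unitary_right (by rw [conjTranspose_conjTranspose, hg]),
    hs2_unitary_left (by rw [conjTranspose_conjTranspose, hg'])]
  rfl

theorem cm_smul (Z g : Matrix (ZMod N) (ZMod N) ℂ) (c : ℂ) : cm Z (c • g) = ‖c‖ ^ 2 * cm Z g := by
  rw [cm, mul_smul_comm, smul_mul_assoc, ← smul_sub, hs2_smul]
  rfl

/-- `g` permutes the Weyl operators up to phases. -/
structure IsCov (g : Matrix (ZMod N) (ZMod N) ℂ) (σ : PP N ≃ PP N) : Prop where
  left : gᴴ * g = 1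
  right : g * gᴴ = 1
  cov : ∀ u, ∃ c : ℂ, ‖c‖ = 1 ∧ g * W u = c • (W (σ u) * g)

theorem star_mul_self_of_norm {c : ℂ} (hc : ‖c‖ = 1) : star c * c = 1 := by
  have := Complex.conj_mul' c
  rw [hc] at this
  simpa using this

theorem cf_cov (Z : Matrix (ZMod N) (ZMod N) ℂ) {g : Matrix (ZMod N) (ZMod N) ℂ}
    (hg : gᴴ * g = 1) {u v : PP N} {c : ℂ} (hc : ‖c‖ = 1)
    (h : g * W u = c • (W v * g)) : cf (g * Z * gᴴ) v = c * cf Z u := by
  have h1 : star c • W u = gᴴ * W v * g := by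
    have h2 : gᴴ * (g * W u) = c • (gᴴ * W v * g) := by
      rw [h, mul_smul_comm, mul_assoc]
    rw [← mul_assoc, hg, one_mul] at h2
    rw [h2, smul_smul, star_mul_self_of_norm hc, one_smul]
  have h3 : c • (W u)ᴴ = gᴴ * (W v)ᴴ * g := by
    have := congrArg conjTranspose h1
    rw [conjTranspose_smul, star_star, conjTranspose_mul, conjTranspose_mul,
      conjTranspose_conjTranspose, ← mul_assoc] at this
    exact this
  have h4 : c * cf Z u = trace (gᴴ * (W v)ᴴ * g * Z) := by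
    rw [cf, ← h3, smul_mul_assoc, trace_smul, smul_eq_mul]
  rw [h4, cf]
  calc trace ((W v)ᴴ * (g * Z * gᴴ)) = trace ((W v)ᴴ * g * Z * gᴴ) := by
        rw [mul_assoc, mul_assoc, mul_assoc]
    _ = trace (gᴴ * ((W v)ᴴ * g * Z)) := trace_mul_comm _ _
    _ = _ := by rw [mul_assoc, mul_assoc, mul_assoc]

theorem hs2_conj_sub (Z : Matrix (ZMod N) (ZMod N) ℂ) {g : Matrix (ZMod N) (ZMod N) ℂ}
    (hg : gᴴ * g = 1) (hg' : g * gᴴ = 1) : hs2 (Z - g * Z * gᴴ) = cm Z g := by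
  rw [← hs2_unitary_right hg' (Z - g * Z * gᴴ), sub_mul, mul_assoc (g * Z), hg, mul_one]
  rfl

theorem qq_cov_le (Z : Matrix (ZMod N) (ZMod N) ℂ) {g : Matrix (ZMod N) (ZMod N) ℂ}
    {σ : PP N ≃ PP N} (hg : IsCov g σ) :
    qq (fun u => ‖cf Z u‖) σ ≤ N * cm Z g := by
  rw [← hs2_conj_sub Z hg.left hg.right, ← parseval, qq,
    ← Equiv.sum_comp σ fun u => ‖cf (Z - g * Z * gᴴ) u‖ ^ 2]
  refine Finset.sum_le_sum fun u _ => ?_
  obtain ⟨c, hc, h⟩ := hg.cov u
  have h1 := cf_cov Z hg.left hc h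
  rw [cf_sub]
  have h2 : ‖cf Z u‖ = ‖cf (g * Z * gᴴ) (σ u)‖ := by rw [h1, norm_mul, hc, one_mul]
  rw [h2]
  have h3 := abs_norm_sub_norm_le (cf Z (σ u)) (cf (g * Z * gᴴ) (σ u))
  rw [← sq_abs]
  exact pow_le_pow_left₀ (abs_nonneg _) h3 2

/-- `g` is proportional to a Weyl operator. -/
def IsW (g : Matrix (ZMod N) (ZMod N) ℂ) (w : PP N) : Prop := ∃ c : ℂ, ‖c‖ = 1 ∧ g = c • W w

theorem isW_W (w : PP N) : IsW (W w) w := ⟨1, norm_one, (one_smul _ _).symm⟩

theorem IsW.mul {g g' : Matrix (ZMod N) (ZMod N) ℂ} {w w' : PP N} (h : IsW g w) (h' : IsW g' w') :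
    IsW (g * g') (w + w') := by
  obtain ⟨c, hc, rfl⟩ := h
  obtain ⟨c', hc', rfl⟩ := h'
  refine ⟨c * c' * ψ (w.2 * w'.1), by rw [norm_mul, norm_mul, hc, hc', norm_psi]; norm_num, ?_⟩
  rw [smul_mul_smul_comm, W_mul, smul_smul]

theorem IsW.star {g : Matrix (ZMod N) (ZMod N) ℂ} {w : PP N} (h : IsW g w) : IsW gᴴ (-w) := by
  obtain ⟨c, hc, rfl⟩ := h
  refine ⟨Star.star c * ψ (w.1 * w.2), by rw [norm_mul, norm_star, hc, norm_psi, one_mul], ?_⟩
  rw [conjTranspose_smul, W_star, smul_smul]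

theorem IsCov.isW {g : Matrix (ZMod N) (ZMod N) ℂ} {σ : PP N ≃ PP N} (hg : IsCov g σ)
    {x : Matrix (ZMod N) (ZMod N) ℂ} {w : PP N} (hx : IsW x w) : IsW (g * x * gᴴ) (σ w) := by
  obtain ⟨c, hc, rfl⟩ := hx
  obtain ⟨d, hd, h⟩ := hg.cov w
  refine ⟨c * d, by rw [norm_mul, hc, hd, one_mul], ?_⟩
  rw [mul_smul_comm, smul_mul_assoc, h, smul_mul_assoc, mul_assoc, hg.right, mul_one, smul_smul]

theorem IsCov.mul {g g' : Matrix (ZMod N) (ZMod N) ℂ} {σ σ' : PP N ≃ PP N} (hg : IsCov g σ)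
    (hg' : IsCov g' σ') : IsCov (g * g') (σ'.trans σ) where
  left := by
    rw [conjTranspose_mul, mul_assoc, ← mul_assoc gᴴ, hg.left, one_mul, hg'.left]
  right := by
    rw [conjTranspose_mul, mul_assoc, ← mul_assoc g', hg'.right, one_mul, hg.right]
  cov u := by
    obtain ⟨c', hc', h'⟩ := hg'.cov u
    obtain ⟨c, hc, h⟩ := hg.cov (σ' u)
    refine ⟨c' * c, by rw [norm_mul, hc, hc', one_mul], ?_⟩
    rw [mul_assoc, h', mul_smul_comm, ← mul_assoc, h, smul_mul_assoc, smul_smul, mul_assoc]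
    rfl

theorem IsCov.smul {g : Matrix (ZMod N) (ZMod N) ℂ} {σ : PP N ≃ PP N} (hg : IsCov g σ) {c : ℂ}
    (hc : ‖c‖ = 1) : IsCov (c • g) σ where
  left := by
    rw [conjTranspose_smul, smul_mul_smul_comm, hg.left, star_mul_self_of_norm hc, one_smul]
  right := by
    rw [conjTranspose_smul, smul_mul_smul_comm, hg.right, mul_comm, star_mul_self_of_norm hc,
      one_smul]
  cov u := by
    obtain ⟨d, hd, h⟩ := hg.cov u
    exact ⟨d, hd, by rw [smul_mul_assoc, h, mul_smul_comm, smul_comm]⟩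

theorem isCov_of_isW {g : Matrix (ZMod N) (ZMod N) ℂ} {w : PP N} (hg : IsW g w) :
    IsCov g (Equiv.refl _) := by
  obtain ⟨c, hc, rfl⟩ := hg
  refine IsCov.smul ⟨W_star_mul w, W_mul_star w, fun u => ?_⟩ hc
  refine ⟨ψ (w.2 * u.1 - u.2 * w.1), norm_psi _, ?_⟩
  rw [W_mul, Equiv.refl_apply, W_mul, smul_smul, ← AddChar.map_add_eq_mul, sub_add_cancel,
    add_comm w u]

theorem weighted_le (Z : Matrix (ZMod N) (ZMod N) ℂ) {g : Matrix (ZMod N) (ZMod N) ℂ} {w : PP N}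
    (hg : IsW g w) : ∑ u : PP N, ‖ψ (w.2 * u.1 - u.2 * w.1) - 1‖ ^ 2 * ‖cf Z u‖ ^ 2 = N * cm Z g := by
  have hcov := isCov_of_isW hg
  obtain ⟨c, hc, rfl⟩ := hg
  rw [← hs2_conj_sub Z hcov.left hcov.right, ← parseval]
  refine Finset.sum_congr rfl fun u _ => ?_
  have h : (c • W w) * W u = ψ (w.2 * u.1 - u.2 * w.1) • (W u * (c • W w)) := by
    rw [smul_mul_assoc, mul_smul_comm, smul_comm, W_mul, W_mul, smul_smul _ _ (W (u + w)),
      ← AddChar.map_add_eq_mul, sub_add_cancel, add_comm w u]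
  rw [cf_sub, cf_cov Z hcov.left (norm_psi _) h, ← mul_pow, ← norm_mul, sub_mul, one_mul,
    norm_sub_rev]

theorem isCov_Fm : IsCov (Fm N) gS :=
  ⟨Fm_star_mul, mul_eq_one_comm.1 Fm_star_mul, fun u => ⟨_, norm_psi _, Fm_mul_W u⟩⟩

theorem isCov_Tm {h : ZMod N} (hh : 2 * h = 1) : IsCov (Tm h) gT :=
  ⟨Tm_star_mul h, mul_eq_one_comm.1 (Tm_star_mul h), fun u => ⟨_, norm_psi _, Tm_mul_W hh u⟩⟩

/-- The product of the two metaplectic operators. -/
noncomputable def Km (h : ZMod N) : Matrix (ZMod N) (ZMod N) ℂ := Fm N * Tm h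

theorem isCov_Km {h : ZMod N} (hh : 2 * h = 1) : IsCov (Km h) (gT.trans gS) :=
  isCov_Fm.mul (isCov_Tm hh)

theorem Km_mul_W {h : ZMod N} (hh : 2 * h = 1) (a b : ZMod N) :
    Km h * W (a, b) = ψ (h * a ^ 2 - a * (a + b)) • (W (-(a + b), a) * Km h) := by
  rw [Km, mul_assoc, Tm_mul_W hh, mul_smul_comm, ← mul_assoc, Fm_mul_W, smul_mul_assoc, smul_smul,
    ← AddChar.map_add_eq_mul, mul_assoc, sub_eq_add_neg]
  rfl

theorem Km_cube_comm {h : ZMod N} (hh : 2 * h = 1) (u : PP N) :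
    (Km h * (Km h * Km h)) * W u = W u * (Km h * (Km h * Km h)) := by
  obtain ⟨a, b⟩ := u
  have e1 := Km_mul_W hh a b
  have e2 := Km_mul_W hh (-(a + b)) a
  have e3 := Km_mul_W hh (-(-(a + b) + a)) (-(a + b))
  have e4 : ((-(-(-(a + b) + a) + -(a + b)), -(-(a + b) + a)) : PP N) = (a, b) := by
    congr 1 <;> ring
  rw [e4] at e3
  calc (Km h * (Km h * Km h)) * W (a, b) = Km h * (Km h * (Km h * W (a, b))) := by
        rw [mul_assoc, mul_assoc]
    _ = ψ (h * a ^ 2 - a * (a + b)) • (Km h * ((Km h * W (-(a + b), a)) * Km h)) := by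
        rw [e1, mul_smul_comm, mul_smul_comm, mul_assoc (Km h) (W _)]
    _ = (ψ (h * a ^ 2 - a * (a + b)) * ψ (h * (-(a + b)) ^ 2 - -(a + b) * (-(a + b) + a))) •
          ((Km h * W (-(-(a + b) + a), -(a + b))) * (Km h * Km h)) := by
        rw [e2, smul_mul_assoc, mul_smul_comm, smul_smul, mul_assoc (W _), ← mul_assoc (Km h) (W _)]
    _ = (ψ (h * a ^ 2 - a * (a + b)) * ψ (h * (-(a + b)) ^ 2 - -(a + b) * (-(a + b) + a)) *
          ψ (h * (-(-(a + b) + a)) ^ 2 - -(-(a + b) + a) * (-(-(a + b) + a) + -(a + b)))) •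
          (W (a, b) * (Km h * (Km h * Km h))) := by
        rw [e3, smul_mul_assoc, smul_smul, mul_assoc (W _)]
    _ = _ := by
        rw [← AddChar.map_add_eq_mul, ← AddChar.map_add_eq_mul]
        have : h * a ^ 2 - a * (a + b) + (h * (-(a + b)) ^ 2 - -(a + b) * (-(a + b) + a)) +
          (h * (-(-(a + b) + a)) ^ 2 - -(-(a + b) + a) * (-(-(a + b) + a) + -(a + b))) = 0 := by
          linear_combination (a ^ 2 + b ^ 2 + a * b) * hh
        rw [this, AddChar.map_zero_eq_one, one_smul]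

theorem Km_cube {h : ZMod N} (hh : 2 * h = 1) :
    ∃ c : ℂ, ‖c‖ = 1 ∧ Km h * (Km h * Km h) = c • (1 : Matrix (ZMod N) (ZMod N) ℂ) := by
  refine ⟨_, ?_, scalar_of_comm (Km_cube_comm hh)⟩
  set c := (Km h * (Km h * Km h)) 0 0 with hc
  have h1 := scalar_of_comm (Km_cube_comm hh)
  have h2 := ((isCov_Km hh).mul ((isCov_Km hh).mul (isCov_Km hh))).left
  rw [h1, ← hc, conjTranspose_smul, conjTranspose_one, smul_mul_smul_comm, one_mul] at h2
  have h3 := congrFun (congrFun h2 0) 0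
  rw [Matrix.smul_apply, Matrix.one_apply_eq, smul_eq_mul, mul_one] at h3
  have h4 : ((‖c‖ ^ 2 : ℝ) : ℂ) = 1 := by
    rw [← h3]
    have := Complex.conj_mul' c
    push_cast
    rw [← this]; rfl
  have h5 : ‖c‖ ^ 2 = 1 := by exact_mod_cast h4
  exact (pow_eq_one_iff_of_nonneg (norm_nonneg c) two_ne_zero).1 h5

theorem cm_word (Z : Matrix (ZMod N) (ZMod N) ℂ) {y P : Matrix (ZMod N) (ZMod N) ℂ}
    (hy : yᴴ * y = 1) (hy' : y * yᴴ = 1) (hP : Pᴴ * P = 1) (hP' : P * Pᴴ = 1) :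
    cm Z (y * P * yᴴ * P) ≤ 12 * cm Z y + 10 * cm Z P := by
  have c2 := cm_mul Z hy hP'
  have hu : (y * P)ᴴ * (y * P) = 1 := by
    rw [conjTranspose_mul, mul_assoc, ← mul_assoc yᴴ, hy, one_mul, hP]
  have c3 := cm_mul Z (g := y * P) (g' := yᴴ) hu (by rw [conjTranspose_conjTranspose, hy])
  rw [cm_star Z hy hy'] at c3
  have hv : (y * P * yᴴ)ᴴ * (y * P * yᴴ) = 1 := by
    rw [conjTranspose_mul, mul_assoc, ← mul_assoc (y * P)ᴴ, hu, one_mul,
      conjTranspose_conjTranspose, hy']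
  have c4 := cm_mul Z (g := y * P * yᴴ) (g' := P) hv hP'
  linarith

theorem cm_word2 (Z : Matrix (ZMod N) (ZMod N) ℂ) {x g : Matrix (ZMod N) (ZMod N) ℂ}
    (hx : xᴴ * x = 1) (hx' : x * xᴴ = 1) (hg : gᴴ * g = 1) (hg' : g * gᴴ = 1) :
    cm Z (xᴴ * g * x) ≤ 6 * cm Z x + 4 * cm Z g := by
  have c6 := cm_mul Z (g := xᴴ) (g' := g) (by rw [conjTranspose_conjTranspose, hx']) hg'
  rw [cm_star Z hx hx'] at c6
  have hu : (xᴴ * g)ᴴ * (xᴴ * g) = 1 := by
    rw [conjTranspose_mul, conjTranspose_conjTranspose, mul_assoc, ← mul_assoc x, hx', one_mul, hg]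
  have c5 := cm_mul Z (g := xᴴ * g) (g' := x) hu hx'
  linarith

/-- The commutator word. -/
theorem word_isW {K : Matrix (ZMod N) (ZMod N) ℂ} {σ : PP N ≃ PP N} (hK : IsCov K σ)
    (hKP : Pm N * K = K * Pm N) (v : PP N) :
    IsW ((W v * K * (W v)ᴴ) * Pm N * (W v * K * (W v)ᴴ)ᴴ * Pm N) (v + σ (-v + -v) + v) := by
  have hPP : Pm N * Pm N = 1 := Pm_mul_Pm
  have hKP' : Pm N * Kᴴ = Kᴴ * Pm N := by
    calc Pm N * Kᴴ = (Kᴴ * K) * Pm N * Kᴴ := by rw [hK.left, one_mul]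
      _ = Kᴴ * (K * Pm N) * Kᴴ := by noncomm_ring
      _ = Kᴴ * Pm N * (K * Kᴴ) := by rw [← hKP]; noncomm_ring
      _ = _ := by rw [hK.right, mul_one]
  have h1 : ∀ u : PP N, IsW (Pm N * W u * Pm N) (-u) := by
    intro u
    rw [Pm_mul_W, mul_assoc, hPP, mul_one]
    exact isW_W _
  have h2 : IsW (Pm N * (W v)ᴴ * Pm N) v := by
    have := h1 (-v)
    rw [neg_neg] at this
    obtain ⟨c, hc, h3⟩ := this
    refine ⟨ψ (v.1 * v.2) * c, by rw [norm_mul, norm_psi, hc, one_mul], ?_⟩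
    rw [W_star, mul_smul_comm, smul_mul_assoc, h3, smul_smul]
  have h3 : (W v * K * (W v)ᴴ) * Pm N * (W v * K * (W v)ᴴ)ᴴ * Pm N =
      W v * (K * ((W v)ᴴ * (Pm N * W v * Pm N)) * Kᴴ) * (Pm N * (W v)ᴴ * Pm N) := by
    rw [conjTranspose_mul, conjTranspose_mul, conjTranspose_conjTranspose]
    calc W v * K * (W v)ᴴ * Pm N * (W v * (Kᴴ * (W v)ᴴ)) * Pm N
        = W v * K * (W v)ᴴ * Pm N * W v * (1 * Kᴴ) * (W v)ᴴ * Pm N := by noncomm_ring
      _ = W v * K * (W v)ᴴ * Pm N * W v * ((Pm N * Pm N) * Kᴴ) * (W v)ᴴ * Pm N := by rw [hPP]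
      _ = W v * K * (W v)ᴴ * Pm N * W v * Pm N * (Pm N * Kᴴ) * (W v)ᴴ * Pm N := by noncomm_ring
      _ = _ := by rw [hKP']; noncomm_ring
  rw [h3]
  refine ((isW_W v).mul (hK.isW ?_)).mul h2
  exact (isW_W v).star.mul (h1 v)

theorem Pm_mul_Km (h : ZMod N) : Pm N * Km h = Km h * Pm N := by
  rw [Km, ← mul_assoc, Pm_mul_Fm, mul_assoc, Pm_mul_Tm, mul_assoc]

end Pool.Agent.R710.QM

namespace Pool.Agent.R710.QM

/-- Two unitary matrices of orders `4` and `3` with a uniform quantum spectral gap. -/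
theorem exists_pair (k : ℕ) : ∃ x y : Matrix (ZMod (6 * k + 1)) (ZMod (6 * k + 1)) ℂ,
    xᴴ * x = 1 ∧ yᴴ * y = 1 ∧ x ^ 4 = 1 ∧ y ^ 3 = 1 ∧
      ∀ Z : Matrix (ZMod (6 * k + 1)) (ZMod (6 * k + 1)) ℂ, trace Z = 0 →
        hs2 Z ≤ 10000 * (hs2 (Z * x - x * Z) + hs2 (Z * y - y * Z)) := by
  set N := 6 * k + 1 with hN
  have hNk : (6 * k + 1 : ZMod N) = 0 := by
    have : ((6 * k + 1 : ℕ) : ZMod N) = 0 := ZMod.natCast_self _
    push_cast at this
    exact this
  let h : ZMod N := 3 * k + 1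
  have hh : 2 * h = 1 := by
    show 2 * (3 * (k : ZMod N) + 1) = 1
    linear_combination hNk
  let v : PP N := (k, k)
  obtain ⟨c, hc, hK3⟩ := Km_cube hh
  obtain ⟨d, hd⟩ := IsAlgClosed.exists_pow_nat_eq (c⁻¹) (n := 3) (by norm_num)
  have hc0 : c ≠ 0 := fun h => by rw [h, norm_zero] at hc; exact zero_ne_one hc
  have hdn : ‖d‖ = 1 := by
    have : ‖d‖ ^ 3 = 1 := by rw [← norm_pow, hd, norm_inv, hc, inv_one]
    exact (pow_eq_one_iff_of_nonneg (norm_nonneg d) (by norm_num)).1 this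
  let y' : Matrix (ZMod N) (ZMod N) ℂ := W v * Km h * (W v)ᴴ
  have hWs : IsCov (W v)ᴴ (Equiv.refl _) := isCov_of_isW (isW_W v).star
  have hW : IsCov (W v) (Equiv.refl _) := isCov_of_isW (isW_W v)
  have hy'cov : IsCov y' (gT.trans gS) := by
    have := (hW.mul (isCov_Km hh)).mul hWs
    exact this
  have hycov : IsCov (d • y') (gT.trans gS) := hy'cov.smul hdn
  have hFcov : IsCov (Fm N) gS := isCov_Fm
  refine ⟨Fm N, d • y', hFcov.left, hycov.left, ?_, ?_, ?_⟩
  · have : Fm N ^ 4 = (Fm N * Fm N) * (Fm N * Fm N) := by noncomm_ring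
    rw [this, Fm_mul_Fm, Pm_mul_Pm]
  · have h1 : y' ^ 3 = W v * (Km h * (Km h * Km h)) * (W v)ᴴ := by
      calc y' ^ 3 = W v * Km h * ((W v)ᴴ * W v) * Km h * ((W v)ᴴ * W v) * Km h * (W v)ᴴ := by
            show (W v * Km h * (W v)ᴴ) ^ 3 = _
            noncomm_ring
        _ = _ := by rw [W_star_mul]; noncomm_ring
    rw [smul_pow, hd, h1, hK3, mul_smul_comm, mul_one, smul_mul_assoc, W_mul_star, smul_smul,
      inv_mul_cancel₀ hc0, one_smul]
  · intro Z hZ
    let F : PP N → ℝ := fun u => ‖cf Z u‖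
    have hF0 : F 0 = 0 := by
      show ‖cf Z 0‖ = 0
      rw [cf, W_zero, conjTranspose_one, one_mul, hZ, norm_zero]
    have hNpos : (0 : ℝ) < N := by rw [hN]; positivity
    have hmass : mass F = N * hs2 Z := parseval Z
    have hg := gap F hF0
    have hqS : qq F gS ≤ N * cm Z (Fm N) := qq_cov_le Z hFcov
    have hqU : qq F (gT.trans gS) ≤ N * cm Z (d • y') := qq_cov_le Z hycov
    have hcy : cm Z (d • y') = cm Z y' := by rw [cm_smul, hdn, one_pow, one_mul]
    -- the words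
    have hPcov : (Pm N)ᴴ * Pm N = 1 := by
      have := (hFcov.mul hFcov).left
      rwa [Fm_mul_Fm] at this
    have hPcov' : Pm N * (Pm N)ᴴ = 1 := mul_eq_one_comm.1 hPcov
    let g1 : Matrix (ZMod N) (ZMod N) ℂ := y' * Pm N * y'ᴴ * Pm N
    have hg1 : IsW g1 (-1, 0) := by
      have := word_isW (isCov_Km hh) (Pm_mul_Km h) v
      have e : (v + (gT.trans gS) (-v + -v) + v : PP N) = (-1, 0) := by
        ext
        · show (k : ZMod N) + -((-(k : ZMod N) + -(k : ZMod N)) + (-(k : ZMod N) + -(k : ZMod N))) +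
            k = -1
          linear_combination hNk
        · show (k : ZMod N) + (-(k : ZMod N) + -(k : ZMod N)) + k = 0
          ring
      rw [e] at this
      exact this
    let g2 : Matrix (ZMod N) (ZMod N) ℂ := (Fm N)ᴴ * g1 * Fm N
    have hg2 : IsW g2 (0, 1) := by
      obtain ⟨c1, hc1, h1⟩ := hg1
      refine ⟨c1, hc1, ?_⟩
      have h2 : Fm N * W (0, 1) = W (-1, 0) * Fm N := by
        rw [Fm_mul_W]
        have e : ψ (-(((0, 1) : PP N).1 * ((0, 1) : PP N).2)) = 1 := by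
          show ψ (-((0 : ZMod N) * 1)) = 1
          rw [zero_mul, neg_zero, AddChar.map_zero_eq_one]
        rw [e, one_smul]
        rfl
      show (Fm N)ᴴ * g1 * Fm N = c1 • W (0, 1)
      rw [h1, mul_smul_comm, smul_mul_assoc, mul_assoc, ← h2, ← mul_assoc, hFcov.left, one_mul]
    have hys : y'ᴴ * y' = 1 := hy'cov.left
    have hys' : y' * y'ᴴ = 1 := hy'cov.right
    have c1 : cm Z (Pm N) ≤ 4 * cm Z (Fm N) := by
      have := cm_mul Z hFcov.left hFcov.right
      rw [Fm_mul_Fm] at this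
      linarith
    have c4 : cm Z g1 ≤ 12 * cm Z y' + 10 * cm Z (Pm N) := cm_word Z hys hys' hPcov hPcov'
    have hg1cov := isCov_of_isW hg1
    have c5 : cm Z g2 ≤ 6 * cm Z (Fm N) + 4 * cm Z g1 :=
      cm_word2 Z hFcov.left hFcov.right hg1cov.left hg1cov.right
    have w1 := weighted_le Z hg1
    have w2 := weighted_le Z hg2
    have hw : wmass F = N * cm Z g2 + N * cm Z g1 := by
      rw [← w1, ← w2, wmass]
      congr 1
      · refine Finset.sum_congr rfl fun u _ => ?_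
        have : ((0, 1) : PP N).2 * u.1 - u.2 * ((0, 1) : PP N).1 = u.1 := by
          show (1 : ZMod N) * u.1 - u.2 * 0 = u.1
          ring
        rw [this]
      · refine Finset.sum_congr rfl fun u _ => ?_
        have : ((-1, 0) : PP N).2 * u.1 - u.2 * ((-1, 0) : PP N).1 = u.2 := by
          show (0 : ZMod N) * u.1 - u.2 * (-1) = u.2
          ring
        rw [this]
    have k0 := cm_nonneg Z (Fm N)
    have k1 := cm_nonneg Z y'
    show hs2 Z ≤ 10000 * (cm Z (Fm N) + cm Z (d • y'))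
    rw [hcy] at hqU ⊢
    have hb1 : cm Z g1 ≤ 12 * cm Z y' + 40 * cm Z (Fm N) := by linarith
    have hb2 : cm Z g2 ≤ 48 * cm Z y' + 166 * cm Z (Fm N) := by linarith
    have hmain : N * hs2 Z ≤ N * (10000 * (cm Z (Fm N) + cm Z y')) := by
      rw [← hmass]
      refine hg.trans ?_
      rw [hw]
      have e0 := mul_nonneg hNpos.le k0
      have e1 := mul_nonneg hNpos.le k1
      have e2 := mul_le_mul_of_nonneg_left hb1 hNpos.le
      have e3 := mul_le_mul_of_nonneg_left hb2 hNpos.le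
      rw [mul_add, mul_left_comm (N : ℝ) 12, mul_left_comm (N : ℝ) 40] at e2
      rw [mul_add, mul_left_comm (N : ℝ) 48, mul_left_comm (N : ℝ) 166] at e3
      rw [mul_left_comm (N : ℝ) 10000, mul_add (N : ℝ)]
      linarith
    exact le_of_mul_le_mul_left hmain hNpos

end Pool.Agent.R710.QM
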