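import Mathlib
import Pool.Agent.R710.QM.Proj
import Pool.Agent.R710.QM.WeilGap

/-!
# The sequence of almost representations
-/

set_option autoImplicit false

open Matrix

namespace Pool.Agent.R710.QM

open scoped Matrix.Norms.L2Operator

theorem core_gen {ι : Type} [Fintype ι] [DecidableEq ι] [Nonempty ι] {x y : Matrix ι ι ℂ}
    (hx : xᴴ * x = 1) (hy : yᴴ * y = 1) (hx4 : x ^ 4 = 1) (hy3 : y ^ 3 = 1)
    (hgap : ∀ Z : Matrix ι ι ℂ, trace Z = 0 →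
        hs2 Z ≤ 10000 * (hs2 (Z * x - x * Z) + hs2 (Z * y - y * Z)))
    (R : ℕ) (hR : 0 < R) (hcard : 5 ^ R < Fintype.card ι) :
    ∃ X Y : Matrix ι ι ℂ, Xᴴ * X = 1 ∧ Yᴴ * Y = 1 ∧ ‖X ^ 4 - Y ^ 3‖ ≤ 7 / R ∧
      (10000 ≤ R → ∀ X' Y' : Matrix ι ι ℂ,
        X'ᴴ * X' = 1 → Y'ᴴ * Y' = 1 → X' ^ 4 = Y' ^ 3 → ‖X - X'‖ ≤ 1 / 100000 →
        ‖Y - Y'‖ ≤ 1 / 100000 → False) := by
  have hx' : x * xᴴ = 1 := mul_eq_one_comm.1 hx
  have hy' : y * yᴴ = 1 := mul_eq_one_comm.1 hy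
  have tr : ∀ z : Matrix ι ι ℂ, zᴴ * z = 1 → star (Φ z) * Φ z = 1 := by
    intro z hz
    rw [← map_star, ← map_mul, star_eq_conjTranspose, hz, map_one]
  have tr' : ∀ z : Matrix ι ι ℂ, z * zᴴ = 1 → Φ z * star (Φ z) = 1 := by
    intro z hz
    rw [← map_star, ← map_mul, star_eq_conjTranspose, hz, map_one]
  obtain ⟨A0, hA1, hA2, hA3, hA4, hA5, ξ, η, hξ, hη, hAξ, hAη⟩ :=
    exists_A (tr x hx) (tr' x hx') (tr y hy) (tr' y hy') hR hcard (θ := 1 / 100) (by norm_num)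
      (by norm_num)
  obtain ⟨A, rfl⟩ := Φ_surj A0
  have hA : Aᴴ * A = 1 := by
    apply Φ_inj
    rw [map_mul, ← star_eq_conjTranspose, map_star, hA1, map_one]
  have hAn := norm_unitaryM_le hA
  have hAm1 : ‖A - 1‖ ≤ 1 / 25 := by
    rw [← norm_Φ, map_sub, map_one]
    exact hA3.trans (by norm_num)
  have hRp : (0 : ℝ) < R := by exact_mod_cast hR
  have hAx : ‖A * x - x * A‖ ≤ 8 / 100 / R := by
    rw [← norm_Φ, map_sub, map_mul, map_mul]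
    exact hA4.trans (by rw [mul_one_div])
  have hAy : ‖A * y - y * A‖ ≤ 8 / 100 / R := by
    rw [← norm_Φ, map_sub, map_mul, map_mul]
    exact hA5.trans (by rw [mul_one_div])
  have h1 := norm_oneM_le (ι := ι)
  have hpow : ∀ (n : ℕ) (z : EE ι) (c : ℂ), Φ A z = c • z → Φ (A ^ n) z = c ^ n • z := by
    intro n z c hz
    induction n with
    | zero =>
      rw [pow_zero, pow_zero, map_one, one_smul]; rfl
    | succ n ih =>
      rw [pow_succ', map_mul]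
      show Φ A (Φ (A ^ n) z) = _
      rw [ih, map_smul, hz, smul_smul, pow_succ]
  have hA12 : ∀ c : ℂ, 1 / 200 ≤ ‖A ^ 12 - c • (1 : Matrix ι ι ℂ)‖ := by
    intro c
    have key : ∀ (z : EE ι) (d : ℂ), z ≠ 0 → Φ A z = d • z →
        ‖d ^ 12 - c‖ ≤ ‖A ^ 12 - c • (1 : Matrix ι ι ℂ)‖ := by
      intro z d hz hd
      have e1 : Φ (A ^ 12 - c • (1 : Matrix ι ι ℂ)) z = (d ^ 12 - c) • z := by
        rw [map_sub, map_smul, map_one]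
        show Φ (A ^ 12) z - c • z = _
        rw [hpow 12 z d hd, sub_smul]
      have e2 := ContinuousLinearMap.le_opNorm
        (Φ (A ^ 12 - c • (1 : Matrix ι ι ℂ))) z
      rw [e1, norm_smul, norm_Φ] at e2
      exact le_of_mul_le_mul_right e2 (norm_pos_iff.2 hz)
    have k1 := key ξ 1 hξ (by rw [one_smul]; exact hAξ)
    have k2 := key η _ hη hAη
    have k3 := omega_bound (θ := 1 / 100) (by norm_num) le_rfl
    rw [one_pow] at k1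
    have k4 : ‖om (1 / 100) ^ 12 - 1‖ ≤ ‖om (1 / 100) ^ 12 - c‖ + ‖1 - c‖ := by
      calc ‖om (1 / 100) ^ 12 - 1‖ = ‖(om (1 / 100) ^ 12 - c) - (1 - c)‖ := by congr 1; ring
        _ ≤ _ := norm_sub_le (om (1 / 100) ^ 12 - c) (1 - c)
    linarith
  have hxn := norm_unitaryM_le hx
  have hyn := norm_unitaryM_le hy
  have hA3n := norm_pow_le_one h1 hAn 3
  have hA4n := norm_pow_le_one h1 hAn 4
  have eX : ‖(x * A ^ 3) ^ 4 - A ^ 12‖ ≤ 384 / 100 / R := by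
    have e1 := mul_pow_sub_le h1 hxn hA3n 4
    have e2 := comm_pow_le h1 (x := x) hAn 3
    rw [hx4, one_mul, ← pow_mul] at e1
    push_cast at e1 e2
    have e3 : (384 : ℝ) / 100 / R = 4 ^ 2 * (3 * (8 / 100 / R)) := by ring
    rw [e3]
    refine e1.trans ?_
    gcongr
    exact e2.trans (by gcongr)
  have eY : ‖(y * A ^ 4) ^ 3 - A ^ 12‖ ≤ 288 / 100 / R := by
    have e1 := mul_pow_sub_le h1 hyn hA4n 3
    have e2 := comm_pow_le h1 (x := y) hAn 4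
    rw [hy3, one_mul, ← pow_mul] at e1
    push_cast at e1 e2
    have e3 : (288 : ℝ) / 100 / R = 3 ^ 2 * (4 * (8 / 100 / R)) := by ring
    rw [e3]
    refine e1.trans ?_
    gcongr
    exact e2.trans (by gcongr)
  have uni : ∀ (z : Matrix ι ι ℂ) (m : ℕ), zᴴ * z = 1 →
      (z * A ^ m)ᴴ * (z * A ^ m) = 1 := by
    intro z m hz
    have hc : (A ^ m)ᴴ * A ^ m = 1 := by
      have hcomm : Commute Aᴴ A := by
        rw [Commute, SemiconjBy, hA, mul_eq_one_comm.1 hA]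
      rw [conjTranspose_pow, ← hcomm.mul_pow, hA, one_pow]
    rw [conjTranspose_mul, mul_assoc, ← mul_assoc zᴴ, hz, one_mul, hc]
  refine ⟨x * A ^ 3, y * A ^ 4, uni x 3 hx, uni y 4 hy, ?_, ?_⟩
  · have e : (x * A ^ 3) ^ 4 - (y * A ^ 4) ^ 3 =
        ((x * A ^ 3) ^ 4 - A ^ 12) - ((y * A ^ 4) ^ 3 - A ^ 12) := by abel
    rw [e]
    have e2 : (7 : ℝ) / R = 384 / 100 / R + 288 / 100 / R + 28 / 100 / R := by ring
    have e3 : (0 : ℝ) ≤ 28 / 100 / R := by positivity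
    have := norm_sub_le ((x * A ^ 3) ^ 4 - A ^ 12) ((y * A ^ 4) ^ 3 - A ^ 12)
    linarith
  · intro hRbig X' Y' hX' hY' hXY hσ1 hσ2
    have hRb : (10000 : ℝ) ≤ R := by exact_mod_cast hRbig
    have eR : 384 / 100 / (R : ℝ) ≤ 384 / 1000000 := by
      rw [div_le_iff₀ hRp]; linarith
    have e4 : ‖(x * A ^ 3) ^ 4 - X' ^ 4‖ ≤ 4 * (1 / 100000) := by
      have := pow_sub_pow_le h1 (norm_unitaryM_le (uni x 3 hx)) (norm_unitaryM_le hX') 4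
      push_cast at this
      exact this.trans (by gcongr)
    have e5 : ‖A ^ 12 - X' ^ 4‖ ≤ 384 / 1000000 + 4 * (1 / 100000) := by
      have e : A ^ 12 - X' ^ 4 = ((x * A ^ 3) ^ 4 - X' ^ 4) - ((x * A ^ 3) ^ 4 - A ^ 12) := by abel
      rw [e]
      have := norm_sub_le ((x * A ^ 3) ^ 4 - X' ^ 4) ((x * A ^ 3) ^ 4 - A ^ 12)
      linarith
    exact no_exact hx hy hgap hA hAm1 hA12 hX' hY' hXY hσ1 hσ2 e5 (by norm_num) (by norm_num)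

theorem core_zmod (R : ℕ) (hR : 0 < R) :
    ∃ X Y : Matrix (ZMod (6 * 5 ^ R + 1)) (ZMod (6 * 5 ^ R + 1)) ℂ,
      Xᴴ * X = 1 ∧ Yᴴ * Y = 1 ∧ ‖X ^ 4 - Y ^ 3‖ ≤ 7 / R ∧
      (10000 ≤ R → ∀ X' Y' : Matrix (ZMod (6 * 5 ^ R + 1)) (ZMod (6 * 5 ^ R + 1)) ℂ,
        X'ᴴ * X' = 1 → Y'ᴴ * Y' = 1 → X' ^ 4 = Y' ^ 3 → ‖X - X'‖ ≤ 1 / 100000 →
        ‖Y - Y'‖ ≤ 1 / 100000 → False) := by
  obtain ⟨x, y, hx, hy, hx4, hy3, hgap⟩ := exists_pair (5 ^ R)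
  exact core_gen hx hy hx4 hy3 hgap R hR (by rw [ZMod.card]; omega)

theorem core_fin (R : ℕ) (hR : 0 < R) :
    ∃ X Y : Matrix (Fin (6 * 5 ^ R + 1)) (Fin (6 * 5 ^ R + 1)) ℂ,
      Xᴴ * X = 1 ∧ Yᴴ * Y = 1 ∧ ‖X ^ 4 - Y ^ 3‖ ≤ 7 / R ∧
      (10000 ≤ R → ∀ X' Y' : Matrix (Fin (6 * 5 ^ R + 1)) (Fin (6 * 5 ^ R + 1)) ℂ,
        X'ᴴ * X' = 1 → Y'ᴴ * Y' = 1 → X' ^ 4 = Y' ^ 3 → ‖X - X'‖ ≤ 1 / 100000 →
        ‖Y - Y'‖ ≤ 1 / 100000 → False) :=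
  core_zmod R hR

end Pool.Agent.R710.QM
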