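import Mathlib
import Pool.Agent.R710.QM.Core

/-!
# Operator norm stability
-/

set_option autoImplicit false

open Matrix Filter Topology

namespace Pool.Agent.R710.QM

open scoped Matrix.Norms.L2Operator

/-- The group `U(k)` of unitary `k × k` matrices. -/
abbrev UU (k : ℕ) : Type := Matrix.unitaryGroup (Fin k) ℂ

/-- A group is operator norm stable. The norm of matrices is the operator norm. -/
def OpStable (G : Type) [Group G] : Prop :=
  ∀ k : ℕ → ℕ, (∀ n, 0 < k n) → ∀ φ : ∀ n, G → UU (k n),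
    (∀ g h : G, Tendsto (fun n => ‖(φ n (g * h) : Matrix (Fin (k n)) (Fin (k n)) ℂ) -
      (φ n g : Matrix (Fin (k n)) (Fin (k n)) ℂ) * (φ n h : Matrix (Fin (k n)) (Fin (k n)) ℂ)‖)
      atTop (𝓝 0)) →
    ∃ ψ : ∀ n, G →* UU (k n), ∀ g : G,
      Tendsto (fun n => ‖(φ n g : Matrix (Fin (k n)) (Fin (k n)) ℂ) -
        (ψ n g : Matrix (Fin (k n)) (Fin (k n)) ℂ)‖) atTop (𝓝 0)

/-- The amalgamated free product of `G₁` and `G₂` over `H`: the quotient of the free product of
`G₁` and `G₂` by the normal subgroup generated by the elements `i(h) j(h)⁻¹`. -/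
abbrev Amalg {G₁ G₂ H : Type} [Group G₁] [Group G₂] [Group H] (i : H →* G₁) (j : H →* G₂) : Type :=
  Monoid.Coprod G₁ G₂ ⧸ Subgroup.normalClosure
    (Set.range fun h : H => Monoid.Coprod.inl (i h) * (Monoid.Coprod.inr (j h))⁻¹)

variable (k : ℕ → ℕ)

/-- The sequences of unitary matrices. -/
abbrev SU : Type := ∀ n, UU (k n)

variable {k}

/-- The distance of two unitary matrices. -/
noncomputable def du {m : ℕ} (u v : UU m) : ℝ :=
  ‖(u : Matrix (Fin m) (Fin m) ℂ) - (v : Matrix (Fin m) (Fin m) ℂ)‖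

theorem du_nonneg {m : ℕ} (u v : UU m) : 0 ≤ du u v := norm_nonneg _

theorem du_comm {m : ℕ} (u v : UU m) : du u v = du v u := norm_sub_rev _ _

theorem du_tri {m : ℕ} (u v w : UU m) : du u w ≤ du u v + du v w := by
  rw [du, du, du]
  have : (u : Matrix (Fin m) (Fin m) ℂ) - w = (u - v) + (v - w) := by abel
  rw [this]
  exact norm_add_le _ _

theorem du_mul_left {m : ℕ} (a u v : UU m) : du (a * u) (a * v) = du u v := by
  rw [du, du]
  have : ((a * u : UU m) : Matrix (Fin m) (Fin m) ℂ) - ((a * v : UU m) :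
      Matrix (Fin m) (Fin m) ℂ) = (a : Matrix (Fin m) (Fin m) ℂ) *
        ((u : Matrix (Fin m) (Fin m) ℂ) - (v : Matrix (Fin m) (Fin m) ℂ)) := by
    rw [mul_sub]; rfl
  rw [this]
  exact CStarRing.norm_coe_unitary_mul a _

theorem du_mul_right {m : ℕ} (a u v : UU m) : du (u * a) (v * a) = du u v := by
  rw [du, du]
  have : ((u * a : UU m) : Matrix (Fin m) (Fin m) ℂ) - ((v * a : UU m) :
      Matrix (Fin m) (Fin m) ℂ) = ((u : Matrix (Fin m) (Fin m) ℂ) -
        (v : Matrix (Fin m) (Fin m) ℂ)) * (a : Matrix (Fin m) (Fin m) ℂ) := by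
    rw [sub_mul]; rfl
  rw [this]
  exact CStarRing.norm_mul_coe_unitary _ a

variable (k)

/-- The sequences that converge to the identity. -/
noncomputable def KK : Subgroup (SU k) where
  carrier := {u | Tendsto (fun n => du (u n) 1) atTop (𝓝 0)}
  one_mem' := by
    show Tendsto (fun n => du (1 : UU (k n)) 1) atTop (𝓝 0)
    have : (fun n => du (1 : UU (k n)) 1) = fun _ => 0 := by
      funext n; rw [du, sub_self, norm_zero]
    rw [this]; exact tendsto_const_nhds
  mul_mem' {u v} hu hv := by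
    show Tendsto (fun n => du (u n * v n) 1) atTop (𝓝 0)
    have h := Tendsto.add (f := fun n => du (v n) 1) (g := fun n => du (u n) 1) hv hu
    rw [add_zero] at h
    refine squeeze_zero (fun n => du_nonneg _ _) (fun n => ?_) h
    have h1 := du_tri (u n * v n) (u n) 1
    have h2 := du_mul_left (u n) (v n) 1
    rw [mul_one] at h2
    rw [h2] at h1
    exact h1
  inv_mem' {u} hu := by
    show Tendsto (fun n => du (u n)⁻¹ 1) atTop (𝓝 0)
    have : (fun n => du (u n)⁻¹ 1) = fun n => du (u n) 1 := by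
      funext n
      have h2 := du_mul_left (u n) (u n)⁻¹ 1
      rw [mul_one, mul_inv_cancel] at h2
      rw [← h2, du_comm]
    rw [this]; exact hu

instance : (KK k).Normal where
  conj_mem u hu g := by
    show Tendsto (fun n => du (g n * u n * (g n)⁻¹) 1) atTop (𝓝 0)
    have : (fun n => du (g n * u n * (g n)⁻¹) 1) = fun n => du (u n) 1 := by
      funext n
      have h1 := du_mul_right (g n) (g n * u n * (g n)⁻¹) 1
      rw [inv_mul_cancel_right, one_mul] at h1
      have h2 := du_mul_left (g n) (u n) 1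
      rw [mul_one] at h2
      rw [← h1, h2]
    rw [this]; exact hu

variable {k}

theorem mk_eq_iff (u v : SU k) : (u : SU k ⧸ KK k) = v ↔
    Tendsto (fun n => du (u n) (v n)) atTop (𝓝 0) := by
  rw [QuotientGroup.eq]
  show Tendsto (fun n => du ((u n)⁻¹ * v n) 1) atTop (𝓝 0) ↔ _
  have : (fun n => du ((u n)⁻¹ * v n) 1) = fun n => du (u n) (v n) := by
    funext n
    have h2 := du_mul_left (u n) ((u n)⁻¹ * v n) 1
    rw [mul_one, mul_inv_cancel_left] at h2
    rw [← h2, du_comm]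
  rw [this]

/-- Stability as a lifting property. -/
theorem opStable_iff (G : Type) [Group G] : OpStable G ↔ ∀ k : ℕ → ℕ, (∀ n, 0 < k n) →
    ∀ f : G →* SU k ⧸ KK k, ∃ F : G →* SU k, ∀ g, (F g : SU k ⧸ KK k) = f g := by
  constructor
  · intro h k hk f
    obtain ⟨φ, hφ⟩ : ∃ φ : G → SU k, ∀ g, (φ g : SU k ⧸ KK k) = f g :=
      ⟨fun g => (f g).out, fun g => Quotient.out_eq _⟩
    obtain ⟨ψ, hψ⟩ := h k hk (fun n g => φ g n) (by
      intro g g'
      have h1 : (φ (g * g') : SU k ⧸ KK k) = ((φ g * φ g' : SU k) : SU k ⧸ KK k) := by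
        rw [QuotientGroup.mk_mul, hφ, hφ, hφ, map_mul]
      have h2 := (mk_eq_iff _ _).1 h1
      refine h2.congr fun n => ?_
      rfl)
    let F : G →* SU k := MonoidHom.mk' (fun g n => ψ n g) (by
      intro a b
      funext n
      exact map_mul (ψ n) a b)
    refine ⟨F, fun g => ?_⟩
    rw [← hφ]
    exact ((mk_eq_iff _ _).2 (hψ g)).symm
  · intro h k hk φ hφ
    let f : G →* SU k ⧸ KK k := MonoidHom.mk' (fun g => ((fun n => φ n g : SU k) : SU k ⧸ KK k)) (by
      intro a b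
      rw [← QuotientGroup.mk_mul]
      exact (mk_eq_iff _ _).2 (hφ a b))
    obtain ⟨F, hF⟩ := h k hk f
    refine ⟨fun n => (Pi.evalMonoidHom _ n).comp F, fun g => ?_⟩
    exact (mk_eq_iff _ _).1 (hF g).symm

theorem opStable_int : OpStable (Multiplicative ℤ) := by
  rw [opStable_iff]
  intro k _ f
  obtain ⟨u, hu⟩ := QuotientGroup.mk_surjective (f (Multiplicative.ofAdd 1))
  refine ⟨zpowersHom _ u, fun g => ?_⟩
  have : (QuotientGroup.mk' (KK k)).comp (zpowersHom _ u) = f := by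
    apply MonoidHom.ext_mint
    show (((zpowersHom _ u) (Multiplicative.ofAdd 1) : SU k) : SU k ⧸ KK k) = _
    rw [zpowersHom_apply, toAdd_ofAdd, zpow_one, hu]
  exact DFunLike.congr_fun this g

/-- The homomorphism `h ↦ h ^ m` of the integers (written multiplicatively). -/
def powHom (m : ℕ) : Multiplicative ℤ →* Multiplicative ℤ := powMonoidHom m

/-- The generators of `⟨x, y | x⁴ = y³⟩`. -/
theorem exists_gens : ∃ gx gy : Amalg (powHom 4) (powHom 3), gx ^ 4 = gy ^ 3 ∧
    ∀ (Q : Type) [Group Q] (a b : Q), a ^ 4 = b ^ 3 →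
      ∃ f : Amalg (powHom 4) (powHom 3) →* Q, f gx = a ∧ f gy = b := by
  refine ⟨((Monoid.Coprod.inl (Multiplicative.ofAdd (1 : ℤ)) :
      Monoid.Coprod (Multiplicative ℤ) (Multiplicative ℤ)) : Amalg (powHom 4) (powHom 3)),
    ((Monoid.Coprod.inr (Multiplicative.ofAdd (1 : ℤ)) :
      Monoid.Coprod (Multiplicative ℤ) (Multiplicative ℤ)) : Amalg (powHom 4) (powHom 3)), ?_, ?_⟩
  · have h3 : Monoid.Coprod.inl (powHom 4 (Multiplicative.ofAdd (1 : ℤ))) *
        (Monoid.Coprod.inr (powHom 3 (Multiplicative.ofAdd (1 : ℤ))))⁻¹ ∈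
        Subgroup.normalClosure (Set.range fun h : Multiplicative ℤ =>
          (Monoid.Coprod.inl (powHom 4 h) * (Monoid.Coprod.inr (powHom 3 h))⁻¹ :
            Monoid.Coprod (Multiplicative ℤ) (Multiplicative ℤ))) :=
      Subgroup.subset_normalClosure ⟨_, rfl⟩
    have h4 := (QuotientGroup.eq_one_iff _).2 h3
    rw [QuotientGroup.mk_mul, QuotientGroup.mk_inv, mul_inv_eq_one] at h4
    have h5 : powHom 4 (Multiplicative.ofAdd (1 : ℤ)) = (Multiplicative.ofAdd (1 : ℤ)) ^ 4 := rfl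
    have h6 : powHom 3 (Multiplicative.ofAdd (1 : ℤ)) = (Multiplicative.ofAdd (1 : ℤ)) ^ 3 := rfl
    rw [h5, h6, map_pow, map_pow, QuotientGroup.mk_pow, QuotientGroup.mk_pow] at h4
    exact h4
  · intro Q _ a b hab
    have hp : Subgroup.normalClosure (Set.range fun h : Multiplicative ℤ =>
        Monoid.Coprod.inl (powHom 4 h) * (Monoid.Coprod.inr (powHom 3 h))⁻¹) ≤
        (Monoid.Coprod.lift (zpowersHom Q a) (zpowersHom Q b)).ker := by
      apply Subgroup.normalClosure_le_normal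
      rintro _ ⟨g, rfl⟩
      rw [SetLike.mem_coe, MonoidHom.mem_ker, map_mul, map_inv, mul_inv_eq_one,
        Monoid.Coprod.lift_apply_inl, Monoid.Coprod.lift_apply_inr, zpowersHom_apply,
        zpowersHom_apply]
      show a ^ (Multiplicative.toAdd (g ^ 4)) = b ^ (Multiplicative.toAdd (g ^ 3))
      rw [toAdd_pow, toAdd_pow, nsmul_eq_mul, nsmul_eq_mul, _root_.zpow_mul, _root_.zpow_mul,
        zpow_natCast, zpow_natCast, hab]
    refine ⟨QuotientGroup.lift _ (Monoid.Coprod.lift (zpowersHom Q a) (zpowersHom Q b)) hp,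
      ?_, ?_⟩
    · rw [QuotientGroup.lift_mk, Monoid.Coprod.lift_apply_inl, zpowersHom_apply, toAdd_ofAdd,
        zpow_one]
    · rw [QuotientGroup.lift_mk, Monoid.Coprod.lift_apply_inr, zpowersHom_apply, toAdd_ofAdd,
        zpow_one]

theorem not_opStable_aux (h : OpStable (Amalg (powHom 4) (powHom 3))) (k : ℕ → ℕ)
    (hk : ∀ n, 0 < k n) (XX YY : SU k)
    (hlim : Tendsto (fun n => du (XX n ^ 4) (YY n ^ 3)) atTop (𝓝 0)) :
    ∃ X' Y' : SU k, (∀ n, X' n ^ 4 = Y' n ^ 3) ∧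
      Tendsto (fun n => du (X' n) (XX n)) atTop (𝓝 0) ∧
      Tendsto (fun n => du (Y' n) (YY n)) atTop (𝓝 0) := by
  rw [opStable_iff] at h
  have hrel : ((XX ^ 4 : SU k) : SU k ⧸ KK k) = ((YY ^ 3 : SU k) : SU k ⧸ KK k) := by
    rw [mk_eq_iff]
    exact hlim
  obtain ⟨gx, gy, hg, hlift⟩ := exists_gens
  obtain ⟨f, hf1, hf2⟩ := hlift (SU k ⧸ KK k) (XX : SU k ⧸ KK k) (YY : SU k ⧸ KK k) (by
    rw [← QuotientGroup.mk_pow, ← QuotientGroup.mk_pow]; exact hrel)
  obtain ⟨F, hF⟩ := h k hk f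
  have h1 : (F gx : SU k ⧸ KK k) = XX := by rw [hF, hf1]
  have h2 : (F gy : SU k ⧸ KK k) = YY := by rw [hF, hf2]
  rw [mk_eq_iff] at h1 h2
  have h3 : F gx ^ 4 = F gy ^ 3 := by rw [← map_pow, hg, map_pow]
  exact ⟨F gx, F gy, fun n => congrFun h3 n, h1, h2⟩

theorem not_opStable : ¬ OpStable (Amalg (powHom 4) (powHom 3)) := by
  intro h
  choose X Y hX hY hXY hno using fun n : ℕ => core_fin (n + 1) (Nat.succ_pos n)
  obtain ⟨X', Y', hX'Y', h1, h2⟩ := not_opStable_aux h (fun n => 6 * 5 ^ (n + 1) + 1)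
    (fun n => Nat.succ_pos _) (fun n => ⟨X n, Matrix.mem_unitaryGroup_iff'.2 (hX n)⟩)
    (fun n => ⟨Y n, Matrix.mem_unitaryGroup_iff'.2 (hY n)⟩) (by
      have hlim : Tendsto (fun n : ℕ => (7 : ℝ) / ((n + 1 : ℕ) : ℝ)) atTop (𝓝 0) :=
        (tendsto_const_div_atTop_nhds_zero_nat 7).comp (tendsto_add_atTop_nat 1)
      exact squeeze_zero (fun n => du_nonneg _ _) (fun n => hXY n) hlim)
  have e1 := (tendsto_order.1 h1).2 (1 / 100000) (by norm_num)
  have e2 := (tendsto_order.1 h2).2 (1 / 100000) (by norm_num)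
  obtain ⟨n, hn1, hn2, hn3⟩ := (e1.and (e2.and (eventually_ge_atTop 10000))).exists
  refine hno n (by omega) (X' n) (Y' n) ?_ ?_ ?_ ?_ ?_
  · exact Matrix.mem_unitaryGroup_iff'.1 (X' n).2
  · exact Matrix.mem_unitaryGroup_iff'.1 (Y' n).2
  · exact congrArg Subtype.val (hX'Y' n)
  · have := hn1.le
    rw [du_comm] at this
    exact this
  · have := hn2.le
    rw [du_comm] at this
    exact this

end Pool.Agent.R710.QM
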